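import Pool.Agent.Lib.MP_0d9445_pr.Defs

/-! Cylinder description of the measurable sets of the space of fields. -/

open MeasureTheory ProbabilityTheory Set Filter Topology Real
open scoped NNReal ENNReal

namespace Pool.Agent.Lib.MP_0d9445_pr.CM

/-- the circles whose closed disc lies in `U` -/
abbrev Disc (U : Set ℂ) : Type := {p : ℝ × ℂ // Metric.closedBall p.2 (exp (-p.1)) ⊆ U}

section
variable {X : Type} [TopologicalSpace X] [LocallyCompactSpace X] [SecondCountableTopology X]

theorem measurable_ev (x : X) : Measurable fun g : C(X, ℝ) => g x :=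
  (continuous_eval_const x).measurable

/-- Evaluation along a dense sequence is a continuous injective map from a Polish space, hence a
measurable embedding. -/
theorem exists_cyl {A : Set C(X, ℝ)} (hA : MeasurableSet A) :
    ∃ S : Set (X → ℝ), MeasurableSet S ∧ ∀ g : C(X, ℝ), g ∈ A ↔ (fun x => g x) ∈ S := by
  obtain ⟨s, hc, hd⟩ := TopologicalSpace.exists_countable_dense X
  have := hc.to_subtype
  have hi : Function.Injective fun (g : C(X, ℝ)) (x : s) => g x := fun g g' he =>
    DFunLike.coe_injective (Continuous.ext_on hd g.continuous g'.continuous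
      fun x hx => congrFun he ⟨x, hx⟩)
  have he : MeasurableEmbedding fun (g : C(X, ℝ)) (x : s) => g x :=
    (continuous_pi fun x : s => continuous_eval_const (x : X)).measurableEmbedding hi
  have hr : Measurable fun (w : X → ℝ) (x : s) => w x :=
    measurable_pi_lambda _ fun x => measurable_pi_apply _
  exact ⟨_, hr (he.measurableSet_image.2 hA), fun g => (hi.mem_set_image (s := A) (a := g)).symm⟩

theorem measurable_cm_iff {Ω : Type*} [MeasurableSpace Ω] {g : Ω → C(X, ℝ)} :
    Measurable g ↔ ∀ x, Measurable fun ω => g ω x := by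
  refine ⟨fun h x => (measurable_ev x).comp h, fun h A hA => ?_⟩
  obtain ⟨S, hS, hAS⟩ := exists_cyl hA
  have h1 : g ⁻¹' A = (fun ω x => g ω x) ⁻¹' S := Set.ext fun ω => hAS (g ω)
  rw [h1]
  exact measurable_pi_lambda _ h hS

theorem cm_measure_ext {μ ν : Measure C(X, ℝ)}
    (h : μ.map (fun g x => g x) = ν.map fun g x => g x) : μ = ν := by
  ext A hA
  obtain ⟨S, hS, hAS⟩ := exists_cyl hA
  have h1 : A = (fun (g : C(X, ℝ)) x => g x) ⁻¹' S := Set.ext hAS
  have h2 : Measurable fun (g : C(X, ℝ)) x => g x := measurable_pi_lambda _ measurable_ev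
  rw [h1, ← Measure.map_apply h2 hS, ← Measure.map_apply h2 hS, h]

end

theorem addFn_apply (H : Field) (f : Fn) (p : ℝ × ℂ) : addFn H f p = H p + avg f p := rfl

theorem Cyl_continuous_avg (p : ℝ × ℂ) : Continuous fun f : Fn => avg f p := by
  have : Continuous fun f : Fn => ∫ θ in (0 : ℝ)..2 * π, f (circleMap p.2 (exp (-p.1)) θ) :=
    intervalIntegral.continuous_parametric_intervalIntegral_of_continuous'
      (f := fun (f : Fn) θ => f (circleMap p.2 (exp (-p.1)) θ)) (continuous_eval.comp (continuous_fst.prodMk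
        ((continuous_circleMap p.2 (exp (-p.1))).comp continuous_snd))) _ _
  exact this.const_smul (2 * π)⁻¹

theorem measurable_addFn : Measurable fun x : Field × Fn => addFn x.1 x.2 :=
  measurable_cm_iff.2 fun p => ((measurable_ev p).comp measurable_fst).add
    ((Cyl_continuous_avg p).measurable.comp measurable_snd)

theorem Cyl_sigmaOn_eq {Ω : Type} [MeasurableSpace Ω] (h : Ω → Field) (U : Set ℂ) :
    sigmaOn h U = MeasurableSpace.comap (fun ω (p : Disc U) => h ω p.1) MeasurableSpace.pi := by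
  unfold sigmaOn MeasurableSpace.pi
  rw [MeasurableSpace.comap_iSup, iSup_subtype']
  refine iSup_congr fun p => ?_
  rw [MeasurableSpace.comap_comp]
  rfl

theorem exists_cyl_on {Ω : Type} [MeasurableSpace Ω] {h : Ω → Field} {U : Set ℂ} {A : Set Ω}
    (hA : MeasurableSet[sigmaOn h U] A) : ∃ S : Set (Disc U → ℝ), MeasurableSet S ∧
      ∀ ω, ω ∈ A ↔ (fun p : Disc U => h ω p.1) ∈ S := by
  rw [Cyl_sigmaOn_eq] at hA
  obtain ⟨S, hS, rfl⟩ := hA
  exact ⟨S, hS, fun _ => Iff.rfl⟩

theorem exists_fun_on {U : Set ℂ} {F : Field → ℝ≥0∞} (hF : Measurable[sigmaOn id U] F) :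
    ∃ G : (Disc U → ℝ) → ℝ≥0∞, Measurable G ∧ ∀ H, F H = G fun p : Disc U => H p.1 := by
  rw [Cyl_sigmaOn_eq] at hF
  obtain ⟨G, hG, he⟩ := hF.exists_eq_measurable_comp
  exact ⟨G, hG, fun H => congrFun he H⟩

theorem avg_congr {f g : ℂ → ℝ} {U : Set ℂ} (h : EqOn f g U) (p : Disc U) :
    avg f p.1 = avg g p.1 := by
  refine circleAverage_congr_sphere (h.mono ?_)
  rw [abs_of_pos (exp_pos _)]
  exact Metric.sphere_subset_closedBall.trans p.2

end Pool.Agent.Lib.MP_0d9445_pr.CM
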