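import Pool.Agent.Lib.MP_0d9445_pr.CM.Kern

/-! Green's identity for the layer kernel, the energy bound and smoothing. -/

open MeasureTheory Set Real Metric
open scoped NNReal

namespace Pool.Agent.Lib.MP_0d9445_pr.CM

variable {k : ℝ → ℝ} {g : ℂ → ℝ} {b r : ℝ}

theorem Green_c1 (hg : ContDiff ℝ 2 g) (e : ℂ) : ContDiff ℝ 1 fun y => fderiv ℝ g y e :=
  (hg.fderiv_right (m := 1) (by norm_num)).clm_apply contDiff_const

theorem Green_c0 (hg : ContDiff ℝ 2 g) (e : ℂ) :
    Continuous fun x => fderiv ℝ (fun y => fderiv ℝ g y e) x e :=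
  ((Green_c1 hg e).continuous_fderiv one_ne_zero).clm_apply continuous_const

theorem lap_continuous (hg : ContDiff ℝ 2 g) : Continuous (lap g) :=
  (Green_c0 hg 1).add (Green_c0 hg Complex.I)

theorem lap_hasCompactSupport (hc : HasCompactSupport g) : HasCompactSupport (lap g) :=
  ((hc.fderiv_apply ℝ 1).fderiv_apply ℝ 1).add
    ((hc.fderiv_apply ℝ Complex.I).fderiv_apply ℝ Complex.I)

theorem Green_int (hg : ContDiff ℝ 2 g) (hc : HasCompactSupport g) {U : ℂ → ℝ} {L : ℝ≥0}
    (hU : LipschitzWith L U) (e : ℂ) :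
    Integrable fun x => lineDeriv ℝ U x e * fderiv ℝ g x e := by
  have h1 : Integrable fun x => fderiv ℝ g x e :=
    (Green_c1 hg e).continuous.integrable_of_hasCompactSupport (hc.fderiv_apply ℝ e)
  exact h1.bdd_mul (c := L * ‖e‖) (aestronglyMeasurable_lineDeriv hU.continuous volume)
    (.of_forall fun _ => norm_lineDeriv_le_of_lipschitz ℝ hU)

theorem Green_one (hg : ContDiff ℝ 2 g) (hc : HasCompactSupport g) {U : ℂ → ℝ} {L : ℝ≥0}
    (hU : LipschitzWith L U) (e : ℂ) :
    ∫ x, U x * fderiv ℝ (fun y => fderiv ℝ g y e) x e =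
      -∫ x, lineDeriv ℝ U x e * fderiv ℝ g x e := by
  have hc' := hc.fderiv_apply ℝ e
  obtain ⟨D, hD⟩ := ContDiff.lipschitzWith_of_hasCompactSupport hc' (Green_c1 hg e) one_ne_zero
  rw [LipschitzWith.integral_lineDeriv_mul_eq (μ := volume) hU hD hc' e, ← integral_neg]
  refine integral_congr_ae (.of_forall fun x => ?_)
  have hd : DifferentiableAt ℝ (fun y => fderiv ℝ g y e) x :=
    (Green_c1 hg e).differentiable one_ne_zero x
  simp only [hd.lineDeriv_eq_fderiv, map_neg]
  ring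

/-- One integration by parts against a Lipschitz function
(`LipschitzWith.integral_lineDeriv_mul_eq`). -/
theorem integral_mul_lap (hg : ContDiff ℝ 2 g) (hc : HasCompactSupport g) {U : ℂ → ℝ} {L : ℝ≥0}
    (hU : LipschitzWith L U) : ∫ x, U x * lap g x =
      -∫ x, (lineDeriv ℝ U x 1 * fderiv ℝ g x 1 +
        lineDeriv ℝ U x Complex.I * fderiv ℝ g x Complex.I) := by
  have hi : ∀ e : ℂ, Integrable fun x => U x * fderiv ℝ (fun y => fderiv ℝ g y e) x e := fun e =>
    (hU.continuous.mul (Green_c0 hg e)).integrable_of_hasCompactSupport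
      (((hc.fderiv_apply ℝ e).fderiv_apply ℝ e).mul_left)
  simp only [lap, mul_add]
  rw [integral_add (hi 1) (hi _), integral_add (Green_int hg hc hU 1) (Green_int hg hc hU _),
    Green_one hg hc hU, Green_one hg hc hU]
  ring

/-- The radial profile of the kernel and its derivative. -/
theorem Green_profile (hk : IsK k) (hb : 1 ≤ b) {ρ : ℝ} (hρ : 0 < ρ) :
    HasDerivAt (fun t => ∫ v in (1 : ℝ)..b, k (v * t) / v) ((k (b * ρ) - k ρ) / ρ) ρ := by
  have hb0 : 0 < b := lt_of_lt_of_le one_pos hb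
  have hf : ContinuousOn (fun s => k s / s) (Ioi 0) :=
    hk.smooth.continuous.continuousOn.div continuousOn_id fun s hs => ne_of_gt hs
  have hi : ∀ s t : ℝ, 0 < s → 0 < t → IntervalIntegrable (fun s => k s / s) volume s t :=
    fun s t hs ht => (hf.mono fun x hx => lt_of_lt_of_le (lt_min hs ht) hx.1).intervalIntegrable
  have hF : ∀ t : ℝ, 0 < t → HasDerivAt (fun u => ∫ s in (1 : ℝ)..u, k s / s) (k t / t) t :=
    fun t ht => intervalIntegral.integral_hasDerivAt_right (hi 1 t one_pos ht)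
      (hf.stronglyMeasurableAtFilter isOpen_Ioi t ht) (hf.continuousAt (Ioi_mem_nhds ht))
  have h1 : HasDerivAt (fun t => (∫ s in (1 : ℝ)..(b * t), k s / s) - ∫ s in (1 : ℝ)..t, k s / s)
      (k (b * ρ) / (b * ρ) * b - k ρ / ρ) ρ := by
    have h2 := (hF (b * ρ) (mul_pos hb0 hρ)).comp ρ ((hasDerivAt_id' ρ).const_mul b)
    rw [mul_one] at h2
    exact h2.sub (hF ρ hρ)
  have h3 : k (b * ρ) / (b * ρ) * b - k ρ / ρ = (k (b * ρ) - k ρ) / ρ := by
    field_simp
  rw [h3] at h1
  refine h1.congr_of_eventuallyEq ?_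
  filter_upwards [Ioi_mem_nhds hρ] with t ht
  have ht0 : (0 : ℝ) < t := ht
  rw [intervalIntegral.integral_interval_sub_left (hi 1 _ one_pos (mul_pos hb0 ht0))
    (hi 1 t one_pos ht0)]
  have h4 := intervalIntegral.integral_comp_mul_right (a := 1) (b := b) (fun s => k s / s) ht0.ne'
  rw [one_mul, smul_eq_mul] at h4
  have h5 : ∫ v in (1 : ℝ)..b, k (v * t) / v = t * ∫ v in (1 : ℝ)..b, k (v * t) / (v * t) := by
    rw [← intervalIntegral.integral_const_mul]
    refine intervalIntegral.integral_congr fun v _ => ?_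
    rcases eq_or_ne v 0 with rfl | hv
    · simp
    · field_simp
  rw [h5, h4, ← mul_assoc, mul_inv_cancel₀ ht0.ne', one_mul]

theorem Green_line {Φ : ℝ → ℝ} {d : ℝ} {w : ℂ} (hΦ : HasDerivAt Φ d ‖w‖) (hw : w ≠ 0) (e : ℂ) :
    HasDerivAt (fun t : ℝ => Φ ‖w + t • e‖) (d * (inner ℝ w e / ‖w‖)) 0 := by
  have h1 : HasDerivAt (fun t : ℝ => w + t • e) e 0 := by
    simpa using ((hasDerivAt_id' (0 : ℝ)).smul_const e).const_add w
  have h0 : ‖w‖ ≠ 0 := norm_ne_zero_iff.mpr hw
  have h2 := h1.norm_sq.sqrt (by simpa using hw)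
  simp only [zero_smul, add_zero, sqrt_sq (norm_nonneg _)] at h2
  have h3 : 2 * inner ℝ w e / (2 * ‖w‖) = inner ℝ w e / ‖w‖ := by field_simp
  rw [h3] at h2
  have h4 : HasDerivAt Φ d ‖w + (0 : ℝ) • e‖ := by simpa using hΦ
  exact h4.comp (0 : ℝ) h2

theorem Green_grad (hk : IsK k) (hb : 1 ≤ b) (z : ℂ) {w : ℂ} (hw : w ≠ 0) (e : ℂ) :
    lineDeriv ℝ (fun x => Kab k 1 b (z - x)) (z + w) e =
      (k (b * ‖w‖) - k ‖w‖) / ‖w‖ * (inner ℝ w e / ‖w‖) := by
  have h1 := Green_line (Green_profile hk hb (norm_pos_iff.mpr hw)) hw e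
  rw [← h1.deriv]
  unfold lineDeriv Kab
  congr 1
  funext t
  have : z - (z + w + t • e) = -(w + t • e) := by ring
  simp only [this, norm_neg]

/-- The integrand in polar coordinates. -/
theorem Green_polar (hk : IsK k) (hb : 1 ≤ b) (g : ℂ → ℝ) (z : ℂ) {ρ : ℝ} (hρ : 0 < ρ) (θ : ℝ) :
    ρ * (lineDeriv ℝ (fun x => Kab k 1 b (z - x)) (circleMap z ρ θ) 1 *
        fderiv ℝ g (circleMap z ρ θ) 1 +
      lineDeriv ℝ (fun x => Kab k 1 b (z - x)) (circleMap z ρ θ) Complex.I *
        fderiv ℝ g (circleMap z ρ θ) Complex.I) =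
    (k (b * ρ) - k ρ) * fderiv ℝ g (circleMap z ρ θ) (Complex.exp (θ * Complex.I)) := by
  set E : ℂ := Complex.exp (θ * Complex.I) with hE
  have hn : ‖(ρ : ℂ) * E‖ = ρ := by
    rw [norm_mul, hE, Complex.norm_exp_ofReal_mul_I, mul_one, Complex.norm_real,
      Real.norm_of_nonneg hρ.le]
  have hw : (ρ : ℂ) * E ≠ 0 := by
    rw [← norm_ne_zero_iff, hn]; exact hρ.ne'
  have hc : circleMap z ρ θ = z + ρ * E := rfl
  have hE2 : E = E.re • (1 : ℂ) + E.im • Complex.I := by
    simp [Complex.re_add_im]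
  have hA : ∀ A : ℂ →L[ℝ] ℝ, A E = E.re * A 1 + E.im * A Complex.I := by
    intro A
    conv_lhs => rw [hE2]
    rw [map_add, map_smul, map_smul, smul_eq_mul, smul_eq_mul]
  rw [hA, hc, Green_grad hk hb z hw, Green_grad hk hb z hw, hn]
  have i1 : inner ℝ ((ρ : ℂ) * E) 1 = ρ * E.re := by simp [Complex.inner]
  have i2 : inner ℝ ((ρ : ℂ) * E) Complex.I = ρ * E.im := by simp [Complex.inner]
  rw [i1, i2]
  field_simp

theorem Green_ray (hg : ContDiff ℝ 2 g) (z : ℂ) (θ ρ : ℝ) :
    HasDerivAt (fun t : ℝ => g (circleMap z t θ))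
      (fderiv ℝ g (circleMap z ρ θ) (Complex.exp (θ * Complex.I))) ρ := by
  have h1 : HasDerivAt (fun t : ℝ => circleMap z t θ) (Complex.exp (θ * Complex.I)) ρ := by
    have := ((Complex.ofRealCLM.hasDerivAt (x := ρ)).mul_const
      (Complex.exp (θ * Complex.I))).const_add z
    simpa [circleMap] using this
  exact ((hg.differentiable (by norm_num) _).hasFDerivAt).comp_hasDerivAt ρ h1

theorem Green_parts (hk : IsK k) (hb : 1 ≤ b) (hg : ContDiff ℝ 2 g) (z : ℂ) (θ : ℝ) :
    ∫ ρ in (0 : ℝ)..1, (k (b * ρ) - k ρ) *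
        fderiv ℝ g (circleMap z ρ θ) (Complex.exp (θ * Complex.I)) =
      -((∫ ρ in (0 : ℝ)..1, b * deriv k (b * ρ) * g (circleMap z ρ θ)) -
        ∫ ρ in (0 : ℝ)..1, 1 * deriv k (1 * ρ) * g (circleMap z ρ θ)) := by
  have hkd : ∀ s, HasDerivAt k (deriv k s) s := fun s =>
    (hk.smooth.differentiable one_ne_zero s).hasDerivAt
  have hk' : Continuous (deriv k) := hk.smooth.continuous_deriv le_rfl
  have hgc : Continuous g := hg.continuous
  have hdg : Continuous (fderiv ℝ g) := hg.continuous_fderiv (by norm_num)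
  have hcm : Continuous fun ρ : ℝ => circleMap z ρ θ := by unfold circleMap; fun_prop
  have hu : ∀ ρ ∈ uIcc (0 : ℝ) 1, HasDerivAt (fun t => k (b * t) - k t)
      (b * deriv k (b * ρ) - 1 * deriv k (1 * ρ)) ρ := by
    intro ρ _
    have h2 := ((hkd (b * ρ)).comp ρ ((hasDerivAt_id' ρ).const_mul b)).sub (hkd ρ)
    have h3 : b * deriv k (b * ρ) - 1 * deriv k (1 * ρ) =
        deriv k (b * ρ) * (b * 1) - deriv k ρ := by
      rw [one_mul, one_mul]; ring
    rw [h3]
    exact h2
  rw [intervalIntegral.integral_mul_deriv_eq_deriv_mul hu (fun ρ _ => Green_ray hg z θ ρ)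
    (Continuous.intervalIntegrable (by fun_prop) _ _)
    (Continuous.intervalIntegrable ((hdg.comp hcm).clm_apply continuous_const) _ _),
    ← intervalIntegral.integral_sub (Continuous.intervalIntegrable (by fun_prop) _ _)
      (Continuous.intervalIntegrable (by fun_prop) _ _)]
  rw [mul_one, mul_zero, hk.supp b (by linarith), hk.supp 1 (by norm_num)]
  simp only [sub_self, zero_mul, zero_sub, sub_mul]

/-- Off `0` the radial derivative of `Kab k 1 b` is `(k (b ρ) - k ρ) / ρ`; polar coordinates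
(`Complex.integral_comp_polarCoord_symm`), then one integration by parts in `ρ` on `[0, 1]`. -/
theorem green_eq (hk : IsK k) (hb : 1 ≤ b) (hg : ContDiff ℝ 2 g) (hc : HasCompactSupport g)
    (z : ℂ) : ∫ x, Kab k 1 b (z - x) * lap g x = Sk k b g z - Sk k 1 g z := by
  obtain ⟨L, hL⟩ := Kab_lipschitz hk one_pos hb
  have hU : LipschitzWith (L * 1) fun x => Kab k 1 b (z - x) :=
    hL.comp (IsometryEquiv.subLeft z).isometry.lipschitz
  have hkc : Continuous k := hk.smooth.continuous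
  have hk' : Continuous (deriv k) := hk.smooth.continuous_deriv le_rfl
  have hgc : Continuous g := hg.continuous
  have hdg : Continuous (fderiv ℝ g) := hg.continuous_fderiv (by norm_num)
  have hcm : Continuous fun p : ℝ × ℝ => circleMap z p.1 p.2 := by unfold circleMap; fun_prop
  set W : ℝ × ℝ → ℝ := fun p => (k (b * p.1) - k p.1) *
    fderiv ℝ g (circleMap z p.1 p.2) (Complex.exp (p.2 * Complex.I)) with hW
  have hWc : Continuous W :=
    (by fun_prop : Continuous fun p : ℝ × ℝ => k (b * p.1) - k p.1).mul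
      ((hdg.comp hcm).clm_apply (by fun_prop))
  rw [integral_mul_lap hg hc hU, ← integral_add_left_eq_self _ z,
    ← Complex.integral_comp_polarCoord_symm]
  have hT : polarCoord.target = Ioi (0 : ℝ) ×ˢ Ioo (-π) π := rfl
  have hm : MeasurableSet (Ioi (0 : ℝ) ×ˢ Ioo (-π) π) := measurableSet_Ioi.prod measurableSet_Ioo
  rw [hT, setIntegral_congr_fun hm (g := W)]
  swap
  · intro p hp
    have h1 : z + Complex.polarCoord.symm p = circleMap z p.1 p.2 := by
      rw [Complex.polarCoord_symm_apply, circleMap, Complex.exp_mul_I]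
      push_cast
      rfl
    simp only [h1, smul_eq_mul]
    exact Green_polar hk hb g z hp.1 p.2
  rw [setIntegral_eq_of_subset_of_forall_sdiff_eq_zero (s := Ioc (0 : ℝ) 1 ×ˢ Ioo (-π) π) hm
    (prod_mono Ioc_subset_Ioi_self subset_rfl)]
  swap
  · intro p hp
    have h1 : 1 < p.1 := by
      by_contra h
      exact hp.2 ⟨⟨hp.1.1, not_lt.mp h⟩, hp.1.2⟩
    simp only [hW]
    rw [hk.supp (b * p.1) (by nlinarith), hk.supp p.1 (by linarith), sub_self, zero_mul]
  have hWi : IntegrableOn W (Ioc (0 : ℝ) 1 ×ˢ Ioo (-π) π) volume :=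
    (hWc.continuousOn.integrableOn_compact (isCompact_Icc.prod isCompact_Icc)).mono_set
      (prod_mono Ioc_subset_Icc_self Ioo_subset_Icc_self)
  rw [IntegrableOn, Measure.volume_eq_prod, ← Measure.prod_restrict] at hWi
  rw [Measure.volume_eq_prod, ← Measure.prod_restrict, integral_prod_symm W hWi,
    ← integral_Ioc_eq_integral_Ioo,
    ← intervalIntegral.integral_of_le (by linarith [pi_pos] : -π ≤ π)]
  have hS : ∀ c : ℝ, IntervalIntegrable
      (fun θ => ∫ ρ in (0 : ℝ)..1, c * deriv k (c * ρ) * g (circleMap z ρ θ)) volume (-π) π := by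
    intro c
    refine Continuous.intervalIntegrable ?_ _ _
    refine intervalIntegral.continuous_parametric_intervalIntegral_of_continuous' ?_ _ _
    have h1 : Continuous fun p : ℝ × ℝ => g (circleMap z p.2 p.1) :=
      hgc.comp (hcm.comp continuous_swap)
    exact (by fun_prop : Continuous fun p : ℝ × ℝ => c * deriv k (c * p.2)).mul h1
  unfold Sk
  rw [← intervalIntegral.integral_sub (hS b) (hS 1), ← intervalIntegral.integral_neg]
  refine intervalIntegral.integral_congr fun θ _ => ?_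
  simp only [hW]
  rw [← intervalIntegral.integral_of_le zero_le_one, Green_parts hk hb hg z θ, neg_neg]

theorem energy_le (hg : ContDiff ℝ 2 g) (hL : LipschitzWith 1 g) (hr : 0 < r) {y : ℂ}
    (hs : ∀ x, 11 * r ≤ ‖x - y‖ → g x = 0) {U : ℂ → ℝ} {L : ℝ≥0} (hU : LipschitzWith L U) :
    |∫ x, U x * lap g x| ≤ 1000 * L * r ^ 2 := by
  have hout : ∀ x, x ∉ closedBall y (11 * r) → 11 * r < ‖x - y‖ := fun x hx => by
    rwa [mem_closedBall, dist_eq_norm, not_le] at hx
  have hc : HasCompactSupport g :=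
    HasCompactSupport.intro (isCompact_closedBall y (11 * r)) fun x hx => hs x (hout x hx).le
  have hz : ∀ x, x ∉ closedBall y (11 * r) → fderiv ℝ g x = 0 := by
    intro x hx
    have h1 : g =ᶠ[nhds x] fun _ => 0 := by
      filter_upwards [isClosed_closedBall.isOpen_compl.mem_nhds hx] with x' hx'
      exact hs x' (hout x' hx').le
    rw [h1.fderiv_eq]
    simp
  have hb : ∀ (x e : ℂ), ‖e‖ = 1 → ‖lineDeriv ℝ U x e * fderiv ℝ g x e‖ ≤ L := by
    intro x e he
    have h1 : ‖lineDeriv ℝ U x e‖ ≤ L * ‖e‖ := norm_lineDeriv_le_of_lipschitz ℝ hU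
    have h2 : ‖fderiv ℝ g x‖ ≤ (1 : ℝ≥0) := norm_fderiv_le_of_lipschitz ℝ hL
    have h3 := (fderiv ℝ g x).le_opNorm e
    rw [he, mul_one] at h1 h3
    rw [norm_mul]
    have h4 : ‖fderiv ℝ g x e‖ ≤ 1 := h3.trans (by simpa using h2)
    calc _ ≤ (L : ℝ) * 1 := mul_le_mul h1 h4 (norm_nonneg _) L.coe_nonneg
      _ = L := mul_one _
  rw [integral_mul_lap hg hc hU, abs_neg, ← Real.norm_eq_abs,
    ← setIntegral_eq_integral_of_forall_compl_eq_zero (s := closedBall y (11 * r))
      (fun x hx => by simp [hz x hx])]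
  have h5 := norm_setIntegral_le_of_norm_le_const (μ := volume) (s := closedBall y (11 * r))
    (f := fun x => lineDeriv ℝ U x 1 * fderiv ℝ g x 1 +
      lineDeriv ℝ U x Complex.I * fderiv ℝ g x Complex.I) (C := L + L)
    measure_closedBall_lt_top
    (fun x _ => (norm_add_le _ _).trans (add_le_add (hb x 1 norm_one) (hb x _ Complex.norm_I)))
  refine h5.trans ?_
  have h6 : volume.real (closedBall y (11 * r)) = (11 * r) ^ 2 * π := by
    rw [Measure.real, Complex.volume_closedBall, ENNReal.toReal_mul, ENNReal.toReal_pow,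
      ENNReal.toReal_ofReal (by linarith)]
    rfl
  rw [h6]
  have h7 : 0 ≤ (L : ℝ) * r ^ 2 := by positivity
  nlinarith [pi_le_four, mul_le_mul_of_nonneg_left pi_le_four h7]

end Pool.Agent.Lib.MP_0d9445_pr.CM
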