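import Mathlib

/-! Smooth compactly supported approximation of a Lipschitz function on a disc. -/

open MeasureTheory Set Real Metric
open scoped NNReal

namespace Pool.Agent.Lib.MP_0d9445_pr.CM

theorem Moll_clamp {φ : ℂ → ℝ} {y : ℂ} {r : ℝ} (hr : 0 < r)
    (hφ : LipschitzOnWith 1 φ (closedBall y (5 * r))) (h0 : φ y = 0) :
    ∃ g : ℂ → ℝ, LipschitzWith 1 g ∧ (∀ x, 10 * r ≤ dist x y → g x = 0) ∧
      ∀ x ∈ closedBall y (5 * r), g x = φ x := by
  obtain ⟨ψ, hψ, he⟩ := hφ.extend_real
  have h1 : LipschitzWith 1 fun x : ℂ => 10 * r - dist x y :=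
    LipschitzWith.mk_one fun a b => by
      rw [dist_sub_left]
      exact dist_dist_dist_le_left _ _ _
  have hd := h1.max_const 0
  refine ⟨fun x => max (-max (10 * r - dist x y) 0) (min (ψ x) (max (10 * r - dist x y) 0)), ?_,
    fun x hx => ?_, fun x hx => ?_⟩
  · simpa only [max_self, Pi.neg_apply] using hd.neg.max (hψ.min hd)
  · dsimp only
    rw [max_eq_right (sub_nonpos.2 hx), neg_zero]
    exact max_eq_left (min_le_right _ _)
  · have h2 := hφ.dist_le_mul x hx y (mem_closedBall_self (by positivity))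
    rw [h0, Real.dist_eq, sub_zero, NNReal.coe_one, one_mul, abs_le] at h2
    have h3 : dist x y ≤ 5 * r := hx
    have h4 := le_max_left (10 * r - dist x y) 0
    dsimp only
    rw [← he hx, min_eq_left (by linarith), max_eq_right (by linarith)]

theorem Moll_lip {b g : ℂ → ℝ} (hb : Continuous b) (hc : HasCompactSupport b) (h0 : ∀ t, 0 ≤ b t)
    (h1 : ∫ t, b t = 1) (hg : LipschitzWith 1 g) :
    LipschitzWith 1 fun x => ∫ t, b t * g (x - t) := by
  have hi : ∀ x, Integrable fun t => b t * g (x - t) := fun x =>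
    (hb.mul (hg.continuous.comp (continuous_const.sub continuous_id))).integrable_of_hasCompactSupport
      hc.mul_right
  refine LipschitzWith.mk_one fun x x' => ?_
  rw [dist_eq_norm, ← integral_sub (hi x) (hi x'), ← one_mul (dist x x'), ← h1,
    ← integral_mul_const]
  refine norm_integral_le_of_norm_le ((hb.integrable_of_hasCompactSupport hc).mul_const _)
    (Filter.Eventually.of_forall fun t => ?_)
  have h2 := hg.dist_le_mul (x - t) (x' - t)
  rw [NNReal.coe_one, one_mul, dist_sub_right, dist_eq_norm] at h2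
  rw [← mul_sub, norm_mul, Real.norm_of_nonneg (h0 t)]
  exact mul_le_mul_of_nonneg_left h2 (h0 t)

/-- Extend (`LipschitzOnWith.extend_real`), clamp between `± (10 r - ‖x - y‖)⁺`, convolve with a
normed bump of radius `min ε r`. -/
theorem exists_smooth {φ : ℂ → ℝ} {y : ℂ} {r ε : ℝ} (hr : 0 < r) (hε : 0 < ε)
    (hφ : LipschitzOnWith 1 φ (closedBall y (5 * r))) (h0 : φ y = 0) :
    ∃ g : ℂ → ℝ, ContDiff ℝ 2 g ∧ HasCompactSupport g ∧ LipschitzWith 1 g ∧
      (∀ x, 11 * r ≤ ‖x - y‖ → g x = 0) ∧ ∀ x ∈ closedBall y (5 * r), |g x - φ x| ≤ ε := by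
  obtain ⟨g, hg, hz, he⟩ := Moll_clamp hr hφ h0
  have hm : 0 < min ε r := lt_min hε hr
  let b : ContDiffBump (0 : ℂ) := ⟨min ε r / 2, min ε r, by linarith, by linarith⟩
  have hb : b.rOut = min ε r := rfl
  have hv : ∀ x, 11 * r ≤ ‖x - y‖ →
      convolution (b.normed volume) g (ContinuousLinearMap.lsmul ℝ ℝ) volume x = 0 := fun x hx => by
    rw [← dist_eq_norm] at hx
    have h1 : g x = 0 := hz x (by linarith)
    rw [← h1]
    refine b.normed_convolution_eq_right fun w hw => h1 ▸ hz w ?_
    have h2 : dist w x < min ε r := hw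
    have h3 := dist_triangle_left x y w
    linarith [min_le_right ε r]
  refine ⟨convolution (b.normed volume) g (ContinuousLinearMap.lsmul ℝ ℝ) volume,
    b.hasCompactSupport_normed.contDiff_convolution_left _ (n := 2) b.contDiff_normed
      hg.continuous.locallyIntegrable, ?_,
    Moll_lip b.continuous_normed b.hasCompactSupport_normed b.nonneg_normed b.integral_normed hg,
    hv, fun x hx => ?_⟩
  · refine HasCompactSupport.intro (isCompact_closedBall y (11 * r)) fun x hx => hv x ?_
    rw [mem_closedBall_iff_norm, not_le] at hx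
    exact hx.le
  · rw [← he x hx, ← Real.dist_eq]
    refine b.dist_normed_convolution_le hg.continuous.aestronglyMeasurable fun w hw => ?_
    have h2 : dist w x < min ε r := hw
    have h3 := hg.dist_le_mul w x
    rw [NNReal.coe_one, one_mul] at h3
    linarith [min_le_left ε r]

end Pool.Agent.Lib.MP_0d9445_pr.CM
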