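import Pool.Agent.Lib.MP_0d9445_pr.Gauss.Riesz
import Pool.Agent.Lib.MP_0d9445_pr.Gauss.Fubini

/-! The Gaussian space of a centred Gaussian process; Riesz representation of a shift. -/

open MeasureTheory ProbabilityTheory Filter Topology LQ.Gauss
open scoped RealInnerProductSpace NNReal ENNReal

namespace Pool.Agent.Lib.MP_0d9445_pr.CM

variable {Ω ι : Type*} {mΩ : MeasurableSpace Ω} {P : Measure Ω}

/-- The closed span in `L²` of a centred Gaussian process carries an isonormal process. -/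
theorem exists_iso {X : ι → Ω → ℝ} (hX : IsGaussianProcess X P) (h0 : ∀ i, ∫ ω, X i ω ∂P = 0) :
    ∃ (K : Submodule ℝ (Lp ℝ 2 P)) (_ : CompleteSpace K) (W : K → Ω → ℝ) (f : ι → K),
      IsIso W P ∧ (∀ i, X i =ᵐ[P] W (f i)) ∧ ∀ i j, ⟪f i, f j⟫ = ∫ ω, X i ω * X j ω ∂P := by
  obtain ⟨K, k, hK, hW, hk⟩ := exists_isIso_of_isGaussianProcess hX h0
  refine ⟨K, hK.completeSpace_coe, _, k, hW, hk, fun i j => ?_⟩
  rw [← hW.integral_mul]
  refine integral_congr_ae ?_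
  filter_upwards [hk i, hk j] with ω h1 h2
  rw [h1, h2]

/-- The same with an abstract Hilbert space. -/
theorem exists_iso' {Ω ι : Type} {mΩ : MeasurableSpace Ω} {P : Measure Ω} {X : ι → Ω → ℝ}
    (hX : IsGaussianProcess X P) (h0 : ∀ i, ∫ ω, X i ω ∂P = 0) :
    ∃ (K : Type) (_ : NormedAddCommGroup K) (_ : InnerProductSpace ℝ K) (_ : CompleteSpace K)
      (W : K → Ω → ℝ) (f : ι → K),
      IsIso W P ∧ (∀ i, X i =ᵐ[P] W (f i)) ∧ ∀ i j, ⟪f i, f j⟫ = ∫ ω, X i ω * X j ω ∂P := by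
  obtain ⟨K, hK, W, f, h⟩ := exists_iso hX h0
  exact ⟨K, inferInstance, inferInstance, hK, W, f, h⟩

/-- Modifications agree on every event of the product sigma-algebra. -/
theorem ae_mem_iff {X Y : ι → Ω → ℝ} (h : ∀ i, X i =ᵐ[P] Y i) {S : Set (ι → ℝ)}
    (hS : MeasurableSet S) : ∀ᵐ ω ∂P, (fun i => X i ω) ∈ S ↔ (fun i => Y i ω) ∈ S := by
  have hS' : MeasurableSet[MeasurableSpace.generateFrom
      {t | ∃ i, ∃ B : Set ℝ, MeasurableSet B ∧ (fun g : ι → ℝ => g i) ⁻¹' B = t}] S := by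
    refine (?_ : (MeasurableSpace.pi : MeasurableSpace (ι → ℝ)) ≤ _) S hS
    refine iSup_le fun i => ?_
    rintro t ⟨B, hB, rfl⟩
    exact MeasurableSpace.measurableSet_generateFrom ⟨i, B, hB, rfl⟩
  clear hS
  induction S, hS' using MeasurableSpace.generateFrom_induction with
  | hC t ht _ =>
    obtain ⟨i, B, -, rfl⟩ := ht
    filter_upwards [h i] with ω hω
    simp only [Set.mem_preimage, hω]
  | empty => simp
  | compl t _ ih =>
    filter_upwards [ih] with ω hω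
    simp only [Set.mem_compl_iff, hω]
  | iUnion t _ ih =>
    filter_upwards [ae_all_iff.2 ih] with ω hω
    simp only [Set.mem_iUnion, hω]

theorem ae_eq_comp {X Y : ι → Ω → ℝ} (h : ∀ i, X i =ᵐ[P] Y i) {F : (ι → ℝ) → ℝ≥0∞}
    (hF : Measurable F) : ∀ᵐ ω ∂P, F (fun i => X i ω) = F (fun i => Y i ω) := by
  have h1 : ∀ q : ℚ, ∀ᵐ ω ∂P, ENNReal.ofReal q < F (fun i => X i ω) ↔
      ENNReal.ofReal q < F (fun i => Y i ω) := fun q =>
    ae_mem_iff h (S := F ⁻¹' Set.Ioi (ENNReal.ofReal q)) (hF measurableSet_Ioi)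
  filter_upwards [ae_all_iff.2 h1] with ω hω
  refine le_antisymm (not_lt.1 fun hlt => ?_) (not_lt.1 fun hlt => ?_)
  · obtain ⟨q, -, h2, h3⟩ := ENNReal.lt_iff_exists_rat_btwn.1 hlt
    exact absurd ((hω q).1 h3) (not_lt.2 h2.le)
  · obtain ⟨q, -, h2, h3⟩ := ENNReal.lt_iff_exists_rat_btwn.1 hlt
    exact absurd ((hω q).2 h3) (not_lt.2 h2.le)

variable {H : Type*} [NormedAddCommGroup H] [InnerProductSpace ℝ H] [CompleteSpace H]

/-- Stochastic Fubini for a jointly measurable modification. -/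
theorem iso_integral {W : H → Ω → ℝ} (hW : IsIso W P) {Θ : Type*} {mΘ : MeasurableSpace Θ}
    {m : Measure Θ} [SFinite m] {k : Θ → H} (hk : Integrable k m)
    {X : Θ → Ω → ℝ} (hX : Measurable (Function.uncurry X)) (e : ∀ θ, X θ =ᵐ[P] W (k θ)) :
    (fun ω => ∫ θ, X θ ω ∂m) =ᵐ[P] W (∫ θ, k θ ∂m) := by
  filter_upwards [hW.integral_comm' hX (Eventually.of_forall e) hk] with ω hω using hω.symm

/-- Riesz: a functional bounded on the span of `f` is an inner product. -/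
theorem riesz (f : ι → H) (u : ι → ℝ) {δ : ℝ} (hδ : 0 ≤ δ)
    (h : ∀ (s : Finset ι) (c : ι → ℝ), |∑ i ∈ s, c i * u i| ≤ δ * ‖∑ i ∈ s, c i • f i‖) :
    ∃ Z : H, ‖Z‖ ≤ δ ∧ ∀ i, ⟪Z, f i⟫ = u i := by
  obtain ⟨v, h1, -, h2⟩ := exists_inner_eq_of_bound f u hδ h
  exact ⟨v, h1, h2⟩

omit [CompleteSpace H] in
/-- Cameron-Martin for null sets of a modification. -/
theorem null_shift_iso {W : H → Ω → ℝ} (hW : IsIso W P) {X : ι → Ω → ℝ} {f : ι → H}
    (e : ∀ i, X i =ᵐ[P] W (f i)) (Z : H) {S : Set (ι → ℝ)} (hS : MeasurableSet S)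
    (h0 : P {ω | (fun i => X i ω) ∈ S} = 0) : P {ω | (fun i => X i ω + ⟪Z, f i⟫) ∈ S} = 0 := by
  have h1 : P {ω | (fun i => W (f i) ω) ∈ S} = 0 := by
    rw [← h0]
    exact measure_congr ((ae_mem_iff e hS).mono fun ω hω => propext hω.symm)
  have h2 : P {ω | (fun i => X i ω + ⟪Z, f i⟫) ∈ S} =
      P {ω | (fun i => W (f i) ω + ⟪Z, f i⟫) ∈ S} :=
    measure_congr ((ae_mem_iff (X := fun i ω => X i ω + ⟪Z, f i⟫)
      (Y := fun i ω => W (f i) ω + ⟪Z, f i⟫)
      (fun i => (e i).mono fun ω hω => by simp only [hω]) hS).mono fun ω hω => propext hω)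
  have h3 := hW.version_map_tilt (X := fun i => W (f i)) (fun i => hW.meas _)
    (fun i => EventuallyEq.rfl) Z
  have hm : Measurable fun ω i => W (f i) ω := measurable_pi_lambda _ fun i => hW.meas _
  have hm' : Measurable fun ω i => W (f i) ω + ⟪Z, f i⟫ :=
    measurable_pi_lambda _ fun i => (hW.meas _).add_const _
  have h4 := congrArg (fun μ : Measure (ι → ℝ) => μ S) h3
  simp only [Measure.map_apply hm hS, Measure.map_apply hm' hS] at h4
  rw [h2]
  exact h4.symm.trans ((hW.tilt_ac Z).1 h1)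

end Pool.Agent.Lib.MP_0d9445_pr.CM
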