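import Pool.Agent.Lib.MP_0d9445_pr.CM.Rep
import Pool.Agent.Lib.MP_0d9445_pr.CM.Span
import Pool.Agent.Lib.MP_0d9445_pr.CM.Green
import Pool.Agent.Lib.MP_0d9445_pr.CM.Moll

/-! Cameron-Martin vectors for the fine field. -/

open MeasureTheory Set Real Metric Filter Topology
open scoped NNReal RealInnerProductSpace

namespace Pool.Agent.Lib.MP_0d9445_pr.CM

variable {k : ℝ → ℝ} {H : Type} [NormedAddCommGroup H] [InnerProductSpace ℝ H] [CompleteSpace H]
  {e : ℕ → ℂ → H} {f : ℝ × ℂ → H}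

theorem Sk_continuous (hk : IsK k) {M b : ℝ} (hM : ∀ s, 0 ≤ s → |deriv k s| ≤ M) (hb : 1 ≤ b)
    {g : ℂ → ℝ} (hg : LipschitzWith 1 g) : Continuous (Sk k b g) := by
  have hM0 : 0 ≤ M := (abs_nonneg _).trans (hM 0 le_rfl)
  refine (LipschitzWith.of_dist_le_mul (K := NNReal.mk (π * M) (by positivity)) fun z w => ?_).continuous
  rw [Real.dist_eq, dist_eq_norm]
  exact Sk_lip hk hM hb hg z w

theorem circleIntegrable_of_on {U : Set ℂ} {ψ : ℂ → ℝ} (hψ : ContinuousOn ψ U) {p : ℝ × ℂ}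
    (hp : closedBall p.2 (exp (-p.1)) ⊆ U) : CircleIntegrable ψ p.2 (exp (-p.1)) :=
  (hψ.mono (sphere_subset_closedBall.trans hp)).circleIntegrable (exp_pos _).le

theorem avg_affine {U : Set ℂ} {ψ : ℂ → ℝ} (hψ : ContinuousOn ψ U) {p : ℝ × ℂ}
    (hp : closedBall p.2 (exp (-p.1)) ⊆ U) (a b : ℝ) :
    avg (fun z => a * ψ z + b) p = a * avg ψ p + b := by
  have h1 := circleIntegrable_of_on hψ hp
  have h2 : CircleIntegrable (fun z => a * ψ z) p.2 (exp (-p.1)) :=
    circleIntegrable_of_on (continuousOn_const.mul hψ) hp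
  unfold avg
  rw [circleAverage_fun_add h2 (circleIntegrable_const _ _ _), circleAverage_const]
  congr 1
  exact circleAverage_fun_smul (a := a) (f := ψ)

theorem abs_avg_le {U : Set ℂ} {ψ : ℂ → ℝ} (hψ : ContinuousOn ψ U) {p : ℝ × ℂ}
    (hp : closedBall p.2 (exp (-p.1)) ⊆ U) {ε : ℝ} (h : ∀ z ∈ U, |ψ z| ≤ ε) : |avg ψ p| ≤ ε := by
  refine abs_circleAverage_le_circleAverage_abs.trans (circleAverage_mono_on_of_le_circle
    (circleIntegrable_of_on hψ.abs hp) fun z hz => h z (hp ?_))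
  rw [abs_of_pos (exp_pos _)] at hz
  exact sphere_subset_closedBall hz

theorem avg_add_on {U : Set ℂ} {ψ χ : ℂ → ℝ} (hψ : ContinuousOn ψ U) (hχ : ContinuousOn χ U)
    {p : ℝ × ℂ} (hp : closedBall p.2 (exp (-p.1)) ⊆ U) :
    avg (fun z => ψ z + χ z) p = avg ψ p + avg χ p :=
  circleAverage_fun_add (circleIntegrable_of_on hψ hp) (circleIntegrable_of_on hχ hp)

/-- The Green vector `Z = ∫ lap g x • ∑_{j < n} e j x`. -/
theorem exists_green (hk : IsK k) {M : ℝ} (hM : ∀ s, 0 ≤ s → |deriv k s| ≤ M) (h : Rep k e f)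
    {g : ℂ → ℝ} {y : ℂ} {r : ℝ} (hr : 0 < r) (hg : ContDiff ℝ 2 g) (hc : HasCompactSupport g)
    (hL : LipschitzWith 1 g) (hs : ∀ x, 11 * r ≤ ‖x - y‖ → g x = 0) (n : ℕ) :
    ∃ Z : H, ‖Z‖ ^ 2 ≤ 2000 * π * M * r ^ 2 ∧
      ∀ p, ⟪Z, f p⟫ = avg (Sk k (2 ^ n) g) p - avg (Sk k 1 g) p := by
  have hM0 : 0 ≤ M := (abs_nonneg _).trans (hM 0 le_rfl)
  have hb : (1 : ℝ) ≤ 2 ^ n := one_le_pow₀ one_le_two
  have lc := lap_continuous hg
  have ls := lap_hasCompactSupport hc
  have li : Integrable (lap g) := lc.integrable_of_hasCompactSupport ls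
  set U : ℕ → ℂ → ℝ := fun j z => ∫ x, Kab k (2 ^ j) (2 ^ (j + 1)) (z - x) * lap g x with hU
  set Z : ℕ → H := fun j => ∫ x, lap g x • e j x with hZ
  have hZe : ∀ i j z, ⟪Z j, e i z⟫ = if i = j then U j z else 0 := fun i j z =>
    h.inner_integral_e hk i j li z
  have hUc : ∀ j, Continuous (U j) := fun j => by
    have : U j = fun z => ⟪Z j, e j z⟫ := funext fun z => by rw [hZe, if_pos rfl]
    rw [this]
    exact continuous_const.inner (h.continuous hk j)
  have hsum : ∀ z, ∑ j ∈ Finset.range n, U j z = Sk k (2 ^ n) g z - Sk k 1 g z := fun z => by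
    rw [← green_eq hk hb hg hc z, hU, ← integral_finsetSum]
    · refine integral_congr_ae (Eventually.of_forall fun x => ?_)
      simp only [← Finset.sum_mul, Kab_sum hk]
    · intro j _
      have h1 : Continuous (Kab k (2 ^ j) (2 ^ (j + 1))) :=
        Kab_continuous hk (by positivity) (pow_le_pow_right₀ one_le_two (Nat.le_succ j))
      exact ((h1.comp (continuous_const.sub continuous_id)).mul lc).integrable_of_hasCompactSupport
        ls.mul_left
  refine ⟨∑ j ∈ Finset.range n, Z j, ?_, fun p => ?_⟩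
  · have h1 : ∀ j ∈ Finset.range n, ⟪∑ i ∈ Finset.range n, Z i, Z j⟫ = ∫ x, U j x * lap g x := by
      intro j hj
      have h2 : Integrable fun x => lap g x • e j x :=
        (lc.smul (h.continuous hk j)).integrable_of_hasCompactSupport ls.smul_right
      refine (integral_inner h2 _).symm.trans
        (integral_congr_ae (Eventually.of_forall fun x => ?_))
      change ⟪∑ i ∈ Finset.range n, Z i, lap g x • e j x⟫ = U j x * lap g x
      rw [real_inner_smul_right, sum_inner, mul_comm, Finset.sum_congr rfl fun i _ => hZe j i x,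
        Finset.sum_ite_eq, if_pos hj]
    have hL2 : LipschitzWith (NNReal.mk (2 * π * M) (by positivity))
        fun z => Sk k (2 ^ n) g z - Sk k 1 g z := by
      refine LipschitzWith.of_dist_le_mul fun z w => ?_
      have a1 := abs_le.1 (Sk_lip hk hM hb hL z w)
      have a2 := abs_le.1 (Sk_lip hk hM le_rfl hL z w)
      rw [Real.dist_eq, dist_eq_norm, NNReal.coe_mk, abs_le]
      constructor <;> linarith [a1.1, a1.2, a2.1, a2.2]
    have h3 := (le_abs_self _).trans (energy_le hg hL hr hs hL2)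
    rw [← real_inner_self_eq_norm_sq, inner_sum, Finset.sum_congr rfl h1, ← integral_finsetSum]
    · simp only [← Finset.sum_mul, hsum]
      rw [NNReal.coe_mk] at h3
      linarith
    · exact fun j _ => ((hUc j).mul lc).integrable_of_hasCompactSupport ls.mul_left
  · have h1 : ∀ j ∈ Finset.range n, ⟪Z j, f p⟫ = avg (U j) p := fun j _ =>
      h.inner_integral hk j li p
    rw [sum_inner, Finset.sum_congr rfl h1]
    unfold avg
    rw [← circleAverage_fun_sum fun j _ => (hUc j).continuousOn.circleIntegrable',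
      ← circleAverage_fun_sub (Sk_continuous hk hM hb hL).continuousOn.circleIntegrable'
        (Sk_continuous hk hM le_rfl hL).continuousOn.circleIntegrable']
    simp only [hsum]

private theorem Dual_arith {a b c d e x E F G ε : ℝ} (hε : 0 < ε)
    (e3 : 2 * π * x = a - 2 * π * b - c - (d + e)) (t1 : |c| ≤ E) (t2 : |a| ≤ ε / 2)
    (t3 : |b| ≤ ε / 2) (t7 : |d| ≤ π * (F + G)) (t8 : |e| ≤ π * F - E) :
    |x| ≤ F + G / 2 + ε := by
  have h3 := pi_gt_three
  have hπ := pi_pos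
  refine le_of_mul_le_mul_left ?_ (show 0 < 2 * π by positivity)
  rw [← abs_of_pos (show 0 < 2 * π by positivity), ← abs_mul, e3,
    abs_of_pos (show 0 < 2 * π by positivity), abs_le]
  have s1 := abs_le.1 t1
  have s2 := abs_le.1 t2
  have s3 := abs_le.1 t3
  have s7 := abs_le.1 t7
  have s8 := abs_le.1 t8
  have s4 := mul_le_mul_of_nonneg_left s3.1 hπ.le
  have s5 := mul_le_mul_of_nonneg_left s3.2 hπ.le
  have s6 : ε ≤ π * ε := by nlinarith
  constructor <;> linarith [s1.1, s1.2, s2.1, s2.2, s7.1, s7.2, s8.1, s8.2]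

/-- One absorption step and its iteration, for a fixed finite combination of circles. -/
theorem dual_bound (hk : IsK k) {M : ℝ} (hM0 : 0 < M) (hM : ∀ s, 0 ≤ s → |deriv k s| ≤ M)
    (h : Rep k e f) {y : ℂ} {r C₀ : ℝ} (hr : 0 < r) (hr1 : r ≤ 1) (hrM : 32 * M * r ≤ 1)
    (hC₀ : 0 ≤ C₀) {Z₀ : H} (hZ₀ : ‖Z₀‖ ≤ C₀)
    (hZ₁ : ∀ p : ℝ × ℂ, closedBall p.2 (exp (-p.1)) ⊆ closedBall y (5 * r) → ⟪Z₀, f p⟫ = 1)
    (s : Finset {p : ℝ × ℂ // closedBall p.2 (exp (-p.1)) ⊆ closedBall y (5 * r)})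
    (c : {p : ℝ × ℂ // closedBall p.2 (exp (-p.1)) ⊆ closedBall y (5 * r)} → ℝ) (n : ℕ) :
    ∀ φ : ℂ → ℝ, LipschitzOnWith 1 φ (closedBall y (5 * r)) → φ y = 0 →
      |∑ i ∈ s, c i * avg φ i.1| ≤ (√(2000 * π * M) + 500 * π * M * C₀) / π * r *
        ‖∑ i ∈ s, c i • f i.1‖ + 5 * r * (∑ i ∈ s, |c i|) / 2 ^ n := by
  set N := ‖∑ i ∈ s, c i • f i.1‖ with hN
  set B := ∑ i ∈ s, |c i| with hB
  set A := (√(2000 * π * M) + 500 * π * M * C₀) / π with hA
  have hN0 : 0 ≤ N := norm_nonneg _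
  have hB0 : 0 ≤ B := Finset.sum_nonneg fun i _ => abs_nonneg _
  have hπ := pi_pos
  have hA0 : 0 ≤ A := by positivity
  have small : ∀ (ψ : ℂ → ℝ) (ε : ℝ), ContinuousOn ψ (closedBall y (5 * r)) →
      (∀ z ∈ closedBall y (5 * r), |ψ z| ≤ ε) → |∑ i ∈ s, c i * avg ψ i.1| ≤ ε * B := by
    intro ψ ε hψ hε
    rw [hB, Finset.mul_sum]
    refine (Finset.abs_sum_le_sum_abs _ _).trans (Finset.sum_le_sum fun i _ => ?_)
    rw [abs_mul, mul_comm]
    exact mul_le_mul_of_nonneg_right (abs_avg_le hψ i.2 hε) (abs_nonneg _)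
  have pair : ∀ (Z : H) (u : ℝ × ℂ → ℝ), (∀ i ∈ s, ⟪Z, f i.1⟫ = u i.1) →
      |∑ i ∈ s, c i * u i.1| ≤ ‖Z‖ * N := by
    intro Z u hu
    refine le_trans (le_of_eq ?_) (abs_real_inner_le_norm Z _)
    rw [inner_sum]
    congr 1
    exact Finset.sum_congr rfl fun i hi => by rw [real_inner_smul_right, hu i hi]
  have hy : y ∈ closedBall y (5 * r) := mem_closedBall_self (by positivity)
  induction n with
  | zero =>
    intro φ hφ h0
    have h1 := small φ (5 * r) hφ.continuousOn fun z hz => by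
      have h2 := hφ.dist_le_mul z hz y hy
      rw [h0, Real.dist_eq, sub_zero, NNReal.coe_one, one_mul] at h2
      exact h2.trans hz
    have : 0 ≤ A * r * N := by positivity
    rw [pow_zero, div_one]
    linarith
  | succ n ih =>
    intro φ hφ h0
    refine le_of_forall_pos_le_add fun ε hε => ?_
    have hε' : 0 < ε / (2 * (B + 1)) := by positivity
    set η := ε / (2 * (B + 1)) with hη
    obtain ⟨g, hg, hc, hL, hs, hgφ⟩ := exists_smooth hr hε' hφ h0
    obtain ⟨l, hl⟩ := pow_unbounded_of_one_lt (π * M / η) (one_lt_two (α := ℝ))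
    have hb : (1 : ℝ) ≤ 2 ^ l := one_le_pow₀ one_le_two
    obtain ⟨Z, hZ, hZf⟩ := exists_green hk hM h hr hg hc hL hs l
    have c1 := Sk_continuous hk hM hb hL
    have c2 := Sk_continuous hk hM le_rfl hL
    have cg := hL.continuous
    have cφ := hφ.continuousOn
    have hZn : ‖Z‖ ≤ √(2000 * π * M) * r := by
      refine (pow_le_pow_iff_left₀ (norm_nonneg _) (by positivity) two_ne_zero).1 ?_
      rwa [mul_pow, sq_sqrt (by positivity)]
    have b1 := (pair Z (fun p => avg (Sk k (2 ^ l) g) p - avg (Sk k 1 g) p)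
      fun i _ => hZf i.1).trans (mul_le_mul_of_nonneg_right hZn hN0)
    have b2 := small (fun z => Sk k (2 ^ l) g z + (2 * π * g z + 0)) η (by fun_prop)
      fun z _ => by
        rw [add_zero]
        refine (Sk_approx hk hM hb hL z).trans ?_
        rw [div_le_iff₀ (by positivity)]
        rw [div_lt_iff₀ hε'] at hl
        linarith
    have b3 := small (fun z => g z + (-1 * φ z + 0)) η (by fun_prop) fun z hz => by
        have := hgφ z hz
        rwa [add_zero, neg_one_mul, ← sub_eq_add_neg]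
    have hκ : 0 < 32 * π * M * r := by positivity
    set ψ : ℂ → ℝ := fun z => (Sk k 1 g z - Sk k 1 g y) / (32 * π * M * r) with hψ
    have hψL : LipschitzOnWith 1 ψ (closedBall y (5 * r)) := by
      refine LipschitzOnWith.of_dist_le_mul fun z hz w hw => ?_
      rw [Real.dist_eq, hψ, ← sub_div, abs_div, abs_of_pos hκ, div_le_iff₀ hκ, dist_eq_norm,
        sub_sub_sub_cancel_right, NNReal.coe_one, one_mul, mul_comm]
      exact Sk_local_lip hk hM hr hL hs hz hw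
    have b4 := ih ψ hψL (by simp [hψ])
    have b5 := (pair Z₀ (fun _ => 1) fun i _ => hZ₁ i.1 i.2).trans
      (mul_le_mul_of_nonneg_right hZ₀ hN0)
    have b6 := Sk_local_val hk hM hr hL hs
    have e1 : Sk k 1 g = fun z => 32 * π * M * r * ψ z + Sk k 1 g y := by
      funext z
      rw [hψ]
      field_simp
      ring
    have e2 : ∑ i ∈ s, c i * avg (Sk k 1 g) i.1 = 32 * π * M * r * ∑ i ∈ s, c i * avg ψ i.1 +
        Sk k 1 g y * ∑ i ∈ s, c i * 1 := by
      rw [Finset.mul_sum, Finset.mul_sum, ← Finset.sum_add_distrib]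
      refine Finset.sum_congr rfl fun i _ => ?_
      conv_lhs => rw [e1]
      rw [avg_affine hψL.continuousOn i.2]
      ring
    have e3 : 2 * π * ∑ i ∈ s, c i * avg φ i.1 =
        ∑ i ∈ s, c i * avg (fun z => Sk k (2 ^ l) g z + (2 * π * g z + 0)) i.1 -
        2 * π * ∑ i ∈ s, c i * avg (fun z => g z + (-1 * φ z + 0)) i.1 -
        ∑ i ∈ s, c i * (avg (Sk k (2 ^ l) g) i.1 - avg (Sk k 1 g) i.1) -
        ∑ i ∈ s, c i * avg (Sk k 1 g) i.1 := by
      simp only [Finset.mul_sum, ← Finset.sum_sub_distrib]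
      refine Finset.sum_congr rfl fun i _ => ?_
      rw [avg_add_on c1.continuousOn (by fun_prop) i.2,
        avg_add_on (χ := fun z => -1 * φ z + 0) cg.continuousOn (by fun_prop) i.2,
        avg_affine cg.continuousOn i.2, avg_affine cφ i.2]
      ring
    have b7 : |32 * π * M * r * ∑ i ∈ s, c i * avg ψ i.1| ≤
        π * (A * r * N + 5 * r * B / 2 ^ n) := by
      rw [abs_mul, abs_of_pos hκ]
      exact mul_le_mul (by nlinarith) b4 (abs_nonneg _) hπ.le
    have b8 : |Sk k 1 g y * ∑ i ∈ s, c i * 1| ≤ 500 * π * M * r * (C₀ * N) := by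
      rw [abs_mul]
      refine mul_le_mul (b6.trans ?_) b5 (abs_nonneg _) (by positivity)
      have : r ^ 2 ≤ r := by nlinarith
      gcongr
    have e4 : π * (A * r * N) = √(2000 * π * M) * r * N + 500 * π * M * r * (C₀ * N) := by
      rw [hA]
      field_simp
    have e5 : η * B ≤ ε / 2 := by
      rw [hη, div_mul_eq_mul_div, div_le_div_iff₀ (by positivity) two_pos]
      nlinarith
    have e6 : 5 * r * B / 2 ^ (n + 1) = 5 * r * B / 2 ^ n / 2 := by rw [pow_succ, div_div]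
    rw [e6]
    exact Dual_arith hε (e3.trans (by rw [e2])) b1 (b2.trans e5) (b3.trans e5) b7
      (b8.trans (by rw [e4]; linarith))

/-- The Lipschitz mode: dual estimate with absorption, then `riesz`. -/
theorem exists_lip (hk : IsK k) : ∃ C : ℝ, 0 < C ∧ ∃ m₀ : ℕ, ∀ {H : Type} [NormedAddCommGroup H]
    [InnerProductSpace ℝ H] [CompleteSpace H] {e : ℕ → ℂ → H} {f : ℝ × ℂ → H}, Rep k e f →
    ∀ (m : ℕ) (y : ℂ) (φ : ℂ → ℝ), m₀ ≤ m → LipschitzOnWith 1 φ (closedBall y (5 * (2 ^ m)⁻¹)) →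
      φ y = 0 → ∃ Z : H, ‖Z‖ ≤ C * (2 ^ m)⁻¹ ∧ ∀ p : ℝ × ℂ,
        closedBall p.2 (exp (-p.1)) ⊆ closedBall y (5 * (2 ^ m)⁻¹) → ⟪Z, f p⟫ = avg φ p := by
  obtain ⟨M, hM0, hM⟩ := hk.exists_bound
  obtain ⟨C₀, hC₀, hc⟩ := exists_const hk
  obtain ⟨l, hl⟩ := pow_unbounded_of_one_lt (32 * M) (one_lt_two (α := ℝ))
  have hπ := pi_pos
  refine ⟨(√(2000 * π * M) + 500 * π * M * √C₀) / π, by positivity, max l 4, ?_⟩
  intro H _ _ _ e f h m y φ hm hφ h0
  obtain ⟨Z₀, h1, h2, -⟩ := hc h m y (le_of_max_le_right hm)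
  have hr : (0 : ℝ) < (2 ^ m)⁻¹ := by positivity
  have hm1 : (1 : ℝ) ≤ m := by exact_mod_cast (le_of_max_le_right hm).trans' (by norm_num)
  have h3 : ‖Z₀‖ ≤ √C₀ := le_sqrt_of_sq_le (h1.trans (div_le_self hC₀.le hm1))
  have h4 : 32 * M * (2 ^ m)⁻¹ ≤ 1 := by
    rw [← div_eq_mul_inv, div_le_one (by positivity)]
    exact hl.le.trans (pow_le_pow_right₀ one_le_two (le_of_max_le_left hm))
  obtain ⟨Z, h5, h6⟩ := riesz
    (fun p : {p : ℝ × ℂ // closedBall p.2 (exp (-p.1)) ⊆ closedBall y (5 * (2 ^ m)⁻¹)} => f p.1)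
    (fun p => avg φ p.1) (δ := (√(2000 * π * M) + 500 * π * M * √C₀) / π * (2 ^ m)⁻¹)
    (by positivity) fun s c => by
      have h7 := fun n => dual_bound hk hM0 hM h hr (inv_le_one_of_one_le₀ (one_le_pow₀ one_le_two))
        h4 (sqrt_nonneg _) h3 h2 s c n φ hφ h0
      have h8 : Tendsto (fun n : ℕ => 5 * ((2 : ℝ) ^ m)⁻¹ * (∑ i ∈ s, |c i|) / 2 ^ n) atTop (𝓝 0) :=
        tendsto_const_nhds.div_atTop (tendsto_pow_atTop_atTop_of_one_lt one_lt_two)
      simpa using ge_of_tendsto' (tendsto_const_nhds.add h8) h7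
  exact ⟨Z, h5, fun p hp => h6 ⟨p, hp⟩⟩

theorem exists_vec (hk : IsK k) (R : ℝ≥0) {δ : ℝ} (hδ : 0 < δ) : ∃ m₀ : ℕ, ∀ {H : Type}
    [NormedAddCommGroup H] [InnerProductSpace ℝ H] [CompleteSpace H] {e : ℕ → ℂ → H}
    {f : ℝ × ℂ → H}, Rep k e f → ∀ (m : ℕ) (y : ℂ) (u : ℂ → ℝ), m₀ ≤ m → |u y| ≤ R →
      LipschitzOnWith R u (ball y 1) → ∃ Z : H, ‖Z‖ ≤ δ ∧
        |⟪Z, ∑ j ∈ Finset.range m, e j y⟫ - u y| ≤ δ ∧ ∀ p : ℝ × ℂ,
        closedBall p.2 (exp (-p.1)) ⊆ closedBall y (5 * (2 ^ m)⁻¹) → ⟪Z, f p⟫ = avg u p := by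
  obtain ⟨C₀, hC₀, hc⟩ := exists_const hk
  obtain ⟨C, hC, m₁, hl⟩ := exists_lip hk
  have hR : (0 : ℝ) < R + 1 := by positivity
  have t1 : ∀ᶠ m : ℕ in atTop, C₀ / m < (δ / (2 * (R + 1))) ^ 2 :=
    (tendsto_const_div_atTop_nhds_zero_nat C₀).eventually (gt_mem_nhds (by positivity))
  have t2 : ∀ᶠ m : ℕ in atTop, (m : ℝ) * (2⁻¹ : ℝ) ^ m < δ / (2 * (R + 1) * C) :=
    (tendsto_self_mul_const_pow_of_lt_one (by norm_num) (by norm_num)).eventually
      (gt_mem_nhds (by positivity))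
  obtain ⟨m₀, hm₀⟩ := eventually_atTop.1
    (t1.and (t2.and ((eventually_ge_atTop 4).and (eventually_ge_atTop m₁))))
  refine ⟨m₀, ?_⟩
  intro H _ _ _ e f h m y u hm hu hL
  obtain ⟨a1, a2, a3, a4⟩ := hm₀ m hm
  rw [inv_pow] at a2
  have hm1 : (1 : ℝ) ≤ m := by exact_mod_cast a3.trans' (by norm_num)
  have hr : (0 : ℝ) < (2 ^ m)⁻¹ := by positivity
  have hsub : closedBall y (5 * (2 ^ m)⁻¹) ⊆ ball y 1 := by
    refine closedBall_subset_ball ?_
    rw [← div_eq_mul_inv, div_lt_one (by positivity)]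
    exact lt_of_lt_of_le (by norm_num) (pow_le_pow_right₀ one_le_two a3)
  obtain ⟨Z₀, b1, b2, b3⟩ := hc h m y a3
  set φ : ℂ → ℝ := fun z => (u z - u y) / (R + 1) with hφ
  have hφL : LipschitzOnWith 1 φ (closedBall y (5 * (2 ^ m)⁻¹)) := by
    refine LipschitzOnWith.of_dist_le_mul fun z hz w hw => ?_
    have := hL.dist_le_mul z (hsub hz) w (hsub hw)
    rw [Real.dist_eq, hφ, ← sub_div, abs_div, abs_of_pos hR, div_le_iff₀ hR,
      sub_sub_sub_cancel_right, NNReal.coe_one, one_mul, ← Real.dist_eq]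
    nlinarith [dist_nonneg (x := z) (y := w)]
  obtain ⟨Z₁, c1, c2⟩ := hl h m y φ a4 hφL (by simp [hφ])
  have d1 : ‖Z₀‖ ≤ δ / (2 * (R + 1)) :=
    (pow_le_pow_iff_left₀ (norm_nonneg _) (by positivity) two_ne_zero).1 (b1.trans a1.le)
  have d2 : (R + 1) * (C * (2 ^ m)⁻¹) * m ≤ δ / 2 := by
    rw [lt_div_iff₀ (by positivity)] at a2
    nlinarith
  have d3 : (R + 1) * ‖Z₁‖ * m ≤ δ / 2 := le_trans (by gcongr) d2
  refine ⟨u y • Z₀ + ((R : ℝ) + 1) • Z₁, ?_, ?_, fun p hp => ?_⟩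
  · refine (norm_add_le _ _).trans ?_
    rw [norm_smul, norm_smul, Real.norm_eq_abs, Real.norm_eq_abs, abs_of_pos hR]
    have e1 : |u y| * ‖Z₀‖ ≤ (R + 1) * (δ / (2 * (R + 1))) :=
      mul_le_mul (by linarith) d1 (norm_nonneg _) hR.le
    have e2 : (R + 1) * (δ / (2 * (R + 1))) = δ / 2 := by field_simp
    have e3 : (R + 1) * ‖Z₁‖ ≤ (R + 1) * ‖Z₁‖ * m := le_mul_of_one_le_right (by positivity) hm1
    linarith
  · rw [inner_add_left, real_inner_smul_left, real_inner_smul_left, b3, mul_one,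
      add_sub_cancel_left, abs_mul, abs_of_pos hR]
    have e1 : ‖∑ j ∈ Finset.range m, e j y‖ ≤ m := by
      refine (pow_le_pow_iff_left₀ (norm_nonneg _) (by positivity) two_ne_zero).1 ?_
      rw [h.norm_sum_sq hk]
      nlinarith [log_two_lt_d9]
    have e2 := (abs_real_inner_le_norm Z₁ _).trans (mul_le_mul_of_nonneg_left e1 (norm_nonneg _))
    have e3 := mul_le_mul_of_nonneg_left e2 hR.le
    nlinarith
  · have e1 : u = fun z => (R + 1) * φ z + u y := by
      funext z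
      rw [hφ]
      field_simp
      ring
    rw [inner_add_left, real_inner_smul_left, real_inner_smul_left, b2 p hp, c2 p hp]
    conv_rhs => rw [e1]
    rw [avg_affine hφL.continuousOn hp]
    ring

end Pool.Agent.Lib.MP_0d9445_pr.CM
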