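import Pool.Agent.Lib.MP_0d9445_pr.Gauss.Tilt

/-! A small Cameron-Martin shift against an exponential weight. -/

open MeasureTheory ProbabilityTheory Filter Topology LQ.Gauss
open scoped RealInnerProductSpace NNReal ENNReal

namespace Pool.Agent.Lib.MP_0d9445_pr.CM

theorem Tilt_abs_exp {η : ℝ} (hη : 0 < η) (A : ℝ) :
    |Real.exp A - 1| ≤ η * Real.exp ((1 + η⁻¹) * |A|) := by
  have h1 : |Real.exp A - 1| ≤ |A| * Real.exp |A| := by
    rcases le_or_gt 0 A with h | h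
    · have e1 := Real.add_one_le_exp (-A)
      have e2 : Real.exp A * Real.exp (-A) = 1 := by rw [← Real.exp_add]; simp
      have e3 := Real.one_le_exp h
      rw [abs_of_nonneg h, abs_of_nonneg (by linarith)]
      nlinarith
    · have e1 := Real.add_one_le_exp A
      have e2 : Real.exp A ≤ 1 := Real.exp_le_one_iff.2 h.le
      have e3 := Real.one_le_exp (x := -A) (by linarith)
      rw [abs_of_neg h, abs_of_nonpos (by linarith)]
      nlinarith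
  have h2 : |A| ≤ η * Real.exp (η⁻¹ * |A|) := by
    have e1 := Real.add_one_le_exp (η⁻¹ * |A|)
    have e2 : |A| = η * (η⁻¹ * |A|) := by field_simp
    calc |A| = η * (η⁻¹ * |A|) := e2
      _ ≤ _ := mul_le_mul_of_nonneg_left (by linarith) hη.le
  calc _ ≤ |A| * Real.exp |A| := h1
    _ ≤ η * Real.exp (η⁻¹ * |A|) * Real.exp |A| :=
      mul_le_mul_of_nonneg_right h2 (Real.exp_pos _).le
    _ = _ := by
      rw [mul_assoc, ← Real.exp_add]
      congr 2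
      ring

section

variable {H Ω : Type} [NormedAddCommGroup H] [InnerProductSpace ℝ H] {mΩ : MeasurableSpace Ω}
  {P : Measure Ω} {W : H → Ω → ℝ}

theorem Tilt_lin (hW : IsIso W P) {Z Λ : H} {s u δ a : ℝ} (hδ : δ ≤ 1) (ha : |a| * δ ≤ 1)
    (hZ : ‖Z‖ ≤ δ) (hu : |⟪Z, Λ⟫ - u| ≤ δ) :
    ∫⁻ ω, ENNReal.ofReal (Real.exp (a * (W Z ω - ‖Z‖ ^ 2 / 2 - s * u) + s * W Λ ω)) ∂P ≤
      ENNReal.ofReal (Real.exp (s ^ 2 * ‖Λ‖ ^ 2 / 2 + |s| + 1)) := by
  have e1 : ∫⁻ ω, ENNReal.ofReal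
      (Real.exp (a * (W Z ω - ‖Z‖ ^ 2 / 2 - s * u) + s * W Λ ω)) ∂P =
      ∫⁻ ω, ENNReal.ofReal (Real.exp (-(a * (‖Z‖ ^ 2 / 2 + s * u)))) *
        ENNReal.ofReal (Real.exp (1 * W (a • Z + s • Λ) ω)) ∂P := by
    refine lintegral_congr_ae ?_
    filter_upwards [hW.add (a • Z) (s • Λ), hW.smul a Z, hW.smul s Λ] with ω h1 h2 h3
    rw [h1, h2, h3, ← ENNReal.ofReal_mul (Real.exp_pos _).le, ← Real.exp_add]
    congr 2
    ring
  rw [e1, lintegral_const_mul' _ _ ENNReal.ofReal_ne_top, hW.lintegral_exp,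
    ← ENNReal.ofReal_mul (Real.exp_pos _).le, ← Real.exp_add]
  refine ENNReal.ofReal_le_ofReal (Real.exp_le_exp.2 ?_)
  rw [norm_add_sq_real, norm_smul, norm_smul, real_inner_smul_left, real_inner_smul_right,
    Real.norm_eq_abs, Real.norm_eq_abs, mul_pow |s|, sq_abs]
  have z0 := norm_nonneg Z
  have a0 := abs_nonneg a
  have h1 : |a| * ‖Z‖ ≤ 1 := (mul_le_mul_of_nonneg_left hZ a0).trans ha
  have h2 : (|a| * ‖Z‖) ^ 2 ≤ 1 := pow_le_one₀ (by positivity) h1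
  have h3 : -a * ‖Z‖ ^ 2 ≤ 1 := by
    calc -a * ‖Z‖ ^ 2 ≤ |a| * ‖Z‖ ^ 2 := mul_le_mul_of_nonneg_right (neg_le_abs a) (sq_nonneg _)
      _ = |a| * ‖Z‖ * ‖Z‖ := by ring
      _ ≤ 1 := mul_le_one₀ h1 z0 (hZ.trans hδ)
  have h4 : a * s * (⟪Z, Λ⟫ - u) ≤ |s| := by
    calc a * s * (⟪Z, Λ⟫ - u) ≤ |a * s * (⟪Z, Λ⟫ - u)| := le_abs_self _
      _ = |s| * (|a| * |⟪Z, Λ⟫ - u|) := by rw [abs_mul, abs_mul]; ring
      _ ≤ |s| * 1 := mul_le_mul_of_nonneg_left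
        ((mul_le_mul_of_nonneg_left hu a0).trans ha) (abs_nonneg _)
      _ = |s| := mul_one _
  nlinarith

theorem Tilt_mom (hW : IsIso W P) {Z Λ : H} {s u q η : ℝ} (hq : 1 ≤ q) (hη : 0 < η)
    (hZ : ‖Z‖ ≤ (q * (1 + η⁻¹))⁻¹) (hu : |⟪Z, Λ⟫ - u| ≤ (q * (1 + η⁻¹))⁻¹) :
    ∫⁻ ω, ENNReal.ofReal (|dens W Z ω - Real.exp (s * u)| * Real.exp (s / q * W Λ ω)) ^ q ∂P ≤
      ENNReal.ofReal (η * Real.exp (s * u + |s| + 2 + s ^ 2 * ‖Λ‖ ^ 2 / 2 / q)) ^ q := by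
  have hq0 : 0 < q := by linarith
  have hη' : 0 < η⁻¹ := inv_pos.2 hη
  have hb : 1 ≤ q * (1 + η⁻¹) := by nlinarith
  have hδ : (q * (1 + η⁻¹))⁻¹ ≤ 1 := inv_le_one_of_one_le₀ hb
  have hb1 : |q * (1 + η⁻¹)| * (q * (1 + η⁻¹))⁻¹ ≤ 1 := by
    rw [abs_of_pos (by linarith), mul_inv_cancel₀ (by linarith)]
  have l1 := Tilt_lin hW (s := s) hδ hb1 hZ hu
  have l2 := Tilt_lin hW (s := s) (a := -(q * (1 + η⁻¹))) hδ (by rwa [abs_neg]) hZ hu
  have hm : Measurable fun ω => ENNReal.ofReal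
      (Real.exp (q * (1 + η⁻¹) * (W Z ω - ‖Z‖ ^ 2 / 2 - s * u) + s * W Λ ω)) :=
    (((((hW.meas Z).sub_const _).sub_const _).const_mul _).add
      ((hW.meas Λ).const_mul _)).exp.ennreal_ofReal
  have hc : 0 < η ^ q * Real.exp (q * (s * u)) := by positivity
  calc _ ≤ ∫⁻ ω, ENNReal.ofReal (η ^ q * Real.exp (q * (s * u))) *
        (ENNReal.ofReal (Real.exp (q * (1 + η⁻¹) * (W Z ω - ‖Z‖ ^ 2 / 2 - s * u) + s * W Λ ω)) +
        ENNReal.ofReal
          (Real.exp (-(q * (1 + η⁻¹)) * (W Z ω - ‖Z‖ ^ 2 / 2 - s * u) + s * W Λ ω))) ∂P := by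
        refine lintegral_mono fun ω => ?_
        rw [ENNReal.ofReal_rpow_of_nonneg (by positivity) hq0.le,
          ← ENNReal.ofReal_add (Real.exp_pos _).le (Real.exp_pos _).le, ← ENNReal.ofReal_mul hc.le]
        refine ENNReal.ofReal_le_ofReal ?_
        have e1 : dens W Z ω - Real.exp (s * u) =
            Real.exp (s * u) * (Real.exp (W Z ω - ‖Z‖ ^ 2 / 2 - s * u) - 1) := by
          rw [dens, mul_sub, ← Real.exp_add, mul_one]
          congr 2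
          ring
        generalize W Z ω - ‖Z‖ ^ 2 / 2 - s * u = A at e1 ⊢
        have e2 : |dens W Z ω - Real.exp (s * u)| * Real.exp (s / q * W Λ ω) ≤
            η * Real.exp (s * u + (1 + η⁻¹) * |A| + s / q * W Λ ω) := by
          rw [e1, abs_mul, abs_of_pos (Real.exp_pos _), Real.exp_add, Real.exp_add]
          calc _ ≤ Real.exp (s * u) * (η * Real.exp ((1 + η⁻¹) * |A|)) *
                Real.exp (s / q * W Λ ω) := by
                gcongr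
                exact Tilt_abs_exp hη A
            _ = _ := by ring
        refine (Real.rpow_le_rpow (by positivity) e2 hq0.le).trans ?_
        rw [Real.mul_rpow hη.le (Real.exp_pos _).le, ← Real.exp_mul,
          show (s * u + (1 + η⁻¹) * |A| + s / q * W Λ ω) * q =
            q * (s * u) + (q * (1 + η⁻¹) * |A| + s * W Λ ω) by field_simp; ring,
          Real.exp_add, ← mul_assoc]
        refine mul_le_mul_of_nonneg_left ?_ hc.le
        rw [Real.exp_add, Real.exp_add, Real.exp_add, ← add_mul]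
        exact mul_le_mul_of_nonneg_right (exp_mul_abs_le _ A) (Real.exp_pos _).le
    _ ≤ ENNReal.ofReal (η ^ q * Real.exp (q * (s * u))) *
        (ENNReal.ofReal (Real.exp (s ^ 2 * ‖Λ‖ ^ 2 / 2 + |s| + 1)) +
          ENNReal.ofReal (Real.exp (s ^ 2 * ‖Λ‖ ^ 2 / 2 + |s| + 1))) := by
        rw [lintegral_const_mul' _ _ ENNReal.ofReal_ne_top, lintegral_add_left hm]
        gcongr
    _ ≤ _ := by
        rw [ENNReal.ofReal_rpow_of_nonneg (by positivity) hq0.le,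
          ← ENNReal.ofReal_add (Real.exp_pos _).le (Real.exp_pos _).le, ← ENNReal.ofReal_mul hc.le,
          Real.mul_rpow hη.le (Real.exp_pos _).le, ← Real.exp_mul, mul_assoc]
        refine ENNReal.ofReal_le_ofReal (mul_le_mul_of_nonneg_left ?_ (by positivity))
        have e1 : (2 : ℝ) ≤ Real.exp 1 := by linarith [Real.add_one_le_exp (1 : ℝ)]
        calc _ = 2 * (Real.exp (q * (s * u)) * Real.exp (s ^ 2 * ‖Λ‖ ^ 2 / 2 + |s| + 1)) := by ring
          _ ≤ Real.exp 1 * (Real.exp (q * (s * u)) *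
              Real.exp (s ^ 2 * ‖Λ‖ ^ 2 / 2 + |s| + 1)) := by gcongr
          _ ≤ _ := by
            rw [← Real.exp_add, ← Real.exp_add]
            refine Real.exp_le_exp.2 ?_
            rw [show (s * u + |s| + 2 + s ^ 2 * ‖Λ‖ ^ 2 / 2 / q) * q =
              q * (s * u) + (|s| + 2) * q + s ^ 2 * ‖Λ‖ ^ 2 / 2 by field_simp; ring]
            nlinarith [abs_nonneg s]

theorem Tilt_err (hW : IsIso W P) {Z Λ : H} {s u p q η : ℝ} (hpq : p.HolderConjugate q)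
    (hη : 0 < η) (hZ : ‖Z‖ ≤ (q * (1 + η⁻¹))⁻¹) (hu : |⟪Z, Λ⟫ - u| ≤ (q * (1 + η⁻¹))⁻¹)
    {G : Ω → ℝ≥0∞} (hG : Measurable G) :
    ∫⁻ ω, ENNReal.ofReal |dens W Z ω - Real.exp (s * u)| * G ω ∂P ≤
      ENNReal.ofReal (η * Real.exp (s * u + |s| + 2 + s ^ 2 * ‖Λ‖ ^ 2 / 2 / q)) *
        (∫⁻ ω, ENNReal.ofReal (Real.exp (-s * (p - 1) * W Λ ω)) * G ω ^ p ∂P) ^ (1 / p) := by
  have hq0 := hpq.symm.pos
  have m1 : Measurable fun ω =>
      ENNReal.ofReal (|dens W Z ω - Real.exp (s * u)| * Real.exp (s / q * W Λ ω)) :=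
    (((hW.meas_dens Z).sub_const _).abs.mul ((hW.meas Λ).const_mul _).exp).ennreal_ofReal
  have m2 : Measurable fun ω => ENNReal.ofReal (Real.exp (-(s / q) * W Λ ω)) * G ω :=
    ((hW.meas Λ).const_mul _).exp.ennreal_ofReal.mul hG
  have h1 := ENNReal.lintegral_mul_le_Lp_mul_Lq P hpq.symm m1.aemeasurable m2.aemeasurable
  refine (le_of_eq ?_).trans (h1.trans (mul_le_mul' ?_ (le_of_eq ?_)))
  · refine lintegral_congr fun ω => ?_
    rw [Pi.mul_apply, ← mul_assoc, ← ENNReal.ofReal_mul (by positivity), mul_assoc,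
      ← Real.exp_add]
    simp
  · refine (ENNReal.rpow_le_rpow (Tilt_mom hW hpq.symm.lt.le hη hZ hu) (by positivity)).trans ?_
    rw [← ENNReal.rpow_mul, mul_one_div_cancel hq0.ne', ENNReal.rpow_one]
  · congr 1
    refine lintegral_congr fun ω => ?_
    rw [ENNReal.mul_rpow_of_nonneg _ _ hpq.pos.le, ENNReal.ofReal_rpow_of_pos (Real.exp_pos _),
      ← Real.exp_mul, ← hpq.div_conj_eq_sub_one]
    congr 3
    ring

end

/-- `E F (W + ⟪Z, .⟫) = E [dens Z * F]` (`lintegral_tilt`); Hoelder for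
`(F exp (-s (p-1) W Λ / p)) * (|dens Z - exp (s u)| exp (s (p-1) W Λ / p))`; tilt by `s • Λ`. -/
theorem tilt_two_sided {p ε : ℝ} (s R : ℝ) (hp : 1 < p) (hε : 0 < ε) : ∃ δ : ℝ, 0 < δ ∧
    ∀ {H Ω ι : Type} [NormedAddCommGroup H] [InnerProductSpace ℝ H] {mΩ : MeasurableSpace Ω}
      {P : Measure Ω} {W : H → Ω → ℝ}, IsIso W P → ∀ (f : ι → H) (Z Λ : H) (u : ℝ),
      ‖Z‖ ≤ δ → |⟪Z, Λ⟫ - u| ≤ δ → |u| ≤ R → ∀ F : (ι → ℝ) → ℝ≥0∞, Measurable F →
      (∫⁻ ω, F (fun i => W (f i) ω + ⟪Z, f i⟫) ∂P ≤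
        ENNReal.ofReal (Real.exp (s * u)) * ∫⁻ ω, F (fun i => W (f i) ω) ∂P +
        ENNReal.ofReal (ε * Real.exp (s ^ 2 * ‖Λ‖ ^ 2 * (1 - 1 / p) / 2)) *
          (∫⁻ ω, ENNReal.ofReal (Real.exp (-s * (p - 1) * W Λ ω)) *
            F (fun i => W (f i) ω) ^ p ∂P) ^ (1 / p)) ∧
      ENNReal.ofReal (Real.exp (s * u)) * ∫⁻ ω, F (fun i => W (f i) ω) ∂P ≤
        ∫⁻ ω, F (fun i => W (f i) ω + ⟪Z, f i⟫) ∂P +
        ENNReal.ofReal (ε * Real.exp (s ^ 2 * ‖Λ‖ ^ 2 * (1 - 1 / p) / 2)) *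
          (∫⁻ ω, ENNReal.ofReal (Real.exp (-s * (p - 1) * W Λ ω)) *
            F (fun i => W (f i) ω) ^ p ∂P) ^ (1 / p) := by
  have hpq : p.HolderConjugate (Real.conjExponent p) := Real.HolderConjugate.conjExponent hp
  generalize Real.conjExponent p = q at hpq
  have hq0 := hpq.symm.pos
  have hη : 0 < ε * Real.exp (-(|s| * R + |s| + 2)) := by positivity
  refine ⟨(q * (1 + (ε * Real.exp (-(|s| * R + |s| + 2)))⁻¹))⁻¹, by positivity, ?_⟩
  intro H Ω ι _ _ mΩ P W hW f Z Λ u hZ hu hR F hF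
  have hG : Measurable fun ω => F fun i => W (f i) ω := hF.comp (hW.meas_family f)
  have h1 := Tilt_err hW (s := s) hpq hη hZ hu hG
  have h2 : ε * Real.exp (-(|s| * R + |s| + 2)) *
      Real.exp (s * u + |s| + 2 + s ^ 2 * ‖Λ‖ ^ 2 / 2 / q) ≤
      ε * Real.exp (s ^ 2 * ‖Λ‖ ^ 2 * (1 - 1 / p) / 2) := by
    rw [mul_assoc, ← Real.exp_add]
    refine mul_le_mul_of_nonneg_left (Real.exp_le_exp.2 ?_) hε.le
    have e1 : s * u ≤ |s| * R := by
      calc s * u ≤ |s * u| := le_abs_self _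
        _ = |s| * |u| := abs_mul _ _
        _ ≤ |s| * R := mul_le_mul_of_nonneg_left hR (abs_nonneg _)
    have e2 : s ^ 2 * ‖Λ‖ ^ 2 / 2 / q = s ^ 2 * ‖Λ‖ ^ 2 * (1 - 1 / p) / 2 := by
      rw [one_div, hpq.one_sub_inv]
      ring
    linarith
  have h3 := h1.trans (mul_le_mul' (ENNReal.ofReal_le_ofReal h2) le_rfl)
  rw [← hW.lintegral_tilt Z f hF, ← lintegral_const_mul' _ _ ENNReal.ofReal_ne_top]
  constructor
  · refine le_trans ?_ (add_le_add le_rfl h3)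
    rw [← lintegral_add_left (hG.const_mul _)]
    refine lintegral_mono fun ω => ?_
    rw [← add_mul, ← ENNReal.ofReal_add (Real.exp_pos _).le (abs_nonneg _)]
    refine mul_le_mul' (ENNReal.ofReal_le_ofReal ?_) le_rfl
    linarith [le_abs_self (dens W Z ω - Real.exp (s * u))]
  · refine le_trans ?_ (add_le_add le_rfl h3)
    rw [← lintegral_add_left ((hW.meas_dens Z).ennreal_ofReal.fun_mul hG)]
    refine lintegral_mono fun ω => ?_
    rw [← add_mul, ← ENNReal.ofReal_add (dens_pos W Z ω).le (abs_nonneg _)]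
    refine mul_le_mul' (ENNReal.ofReal_le_ofReal ?_) le_rfl
    linarith [neg_abs_le (dens W Z ω - Real.exp (s * u))]

end Pool.Agent.Lib.MP_0d9445_pr.CM
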