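import Pool.Agent.Lib.MP_0d9445_pr.Layers
import Pool.Agent.Lib.MP_0d9445_pr.CM.Cyl
import Pool.Agent.Lib.MP_0d9445_pr.CM.Tilt
import Pool.Agent.Lib.MP_0d9445_pr.CM.Dual

/-! Cameron-Martin for the fine field at small scales, against an exponential weight. -/

open MeasureTheory ProbabilityTheory Set Real Metric LQ.Gauss
open scoped NNReal ENNReal RealInnerProductSpace

namespace Pool.Agent.Lib.MP_0d9445_pr.CM

theorem layCov_eq (k : ℝ → ℝ) (j : ℕ) (x y : ℂ) :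
    layCov k j x y = Kab k (2 ^ j) (2 ^ (j + 1)) (x - y) := by
  unfold layCov Kab
  rw [zpow_natCast, ← Nat.cast_succ, zpow_natCast]

/-- The Gaussian space of the layers. -/
theorem layers_iso (L : Layers) :
    ∃ (K : Type) (_ : NormedAddCommGroup K) (_ : InnerProductSpace ℝ K) (_ : CompleteSpace K)
      (W : K → L.Ω → ℝ) (e : ℕ → ℂ → K) (f : ℝ × ℂ → K), IsIso W L.P ∧ Rep L.k e f ∧
      (∀ (j : ℕ) x, (fun ω => L.eta j ω x) =ᵐ[L.P] W (e j x)) ∧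
      ∀ p, (fun ω => L.H 0 ω p) =ᵐ[L.P] W (f p) := by
  obtain ⟨K, _, _, hK, W, f, hW, e, -⟩ := exists_iso' L.gproc (by
    rintro (a | a)
    · exact L.mean_eta _ _
    · exact L.mean_H _ _)
  have e1 : ∀ (j : ℕ) x, (fun ω => L.eta j ω x) =ᵐ[L.P] W (f (Sum.inl (j, x))) :=
    fun j x => e (Sum.inl (j, x))
  have e2 : ∀ p, (fun ω => L.H 0 ω p) =ᵐ[L.P] W (f (Sum.inr (0, p))) := fun p => e (Sum.inr (0, p))
  refine ⟨K, _, _, hK, W, fun j x => f (Sum.inl (j, x)), fun p => f (Sum.inr (0, p)), hW,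
    ⟨fun i j x y => ?_, fun p j y => ?_⟩, e1, e2⟩
  · rw [← hW.version_cov (e1 i x) (e1 j y), L.cov_eta, layCov_eq]
    simp only [Nat.cast_inj]
  · rw [← hW.version_cov (e2 p) (e1 j y), L.cov_H_eta, if_pos (Int.natCast_nonneg j)]
    simp only [layCov_eq]

theorem cm0 (L : Layers) {p ε : ℝ} (s : ℝ) (R : ℝ≥0) (hp : 1 < p)
    (hε : 0 < ε) : ∃ m₀ : ℕ, ∀ (m : ℕ) (y : ℂ) (u : Fn), m₀ ≤ m → |u y| ≤ R →
      LipschitzOnWith R u (ball y 1) → ∀ F : Field → ℝ≥0∞,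
      Measurable[sigmaOn id (closedBall y (5 * (2 ^ m)⁻¹))] F →
      (∫⁻ ω, F (addFn (L.H 0 ω) u) ∂L.P ≤
        ENNReal.ofReal (exp (s * u y)) * ∫⁻ ω, F (L.H 0 ω) ∂L.P +
        ENNReal.ofReal (ε * 2 ^ (s ^ 2 * m * (1 - 1 / p) / 2)) *
          (∫⁻ ω, ENNReal.ofReal (exp (-s * (p - 1) * (∑ j ∈ Finset.range m, L.eta j ω) y)) *
            F (L.H 0 ω) ^ p ∂L.P) ^ (1 / p)) ∧
      ENNReal.ofReal (exp (s * u y)) * ∫⁻ ω, F (L.H 0 ω) ∂L.P ≤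
        ∫⁻ ω, F (addFn (L.H 0 ω) u) ∂L.P +
        ENNReal.ofReal (ε * 2 ^ (s ^ 2 * m * (1 - 1 / p) / 2)) *
          (∫⁻ ω, ENNReal.ofReal (exp (-s * (p - 1) * (∑ j ∈ Finset.range m, L.eta j ω) y)) *
            F (L.H 0 ω) ^ p ∂L.P) ^ (1 / p) := by
  have hK : IsK L.k := ⟨L.k_smooth, L.k_zero, L.k_supp, L.k_nonneg⟩
  obtain ⟨δ, hδ, ht⟩ := tilt_two_sided s R hp hε
  obtain ⟨m₀, hm₀⟩ := exists_vec hK R hδ
  obtain ⟨K, _, _, _, W, e, f, hW, hR, e1, e2⟩ := layers_iso L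
  refine ⟨m₀, fun m y u hm hu hL F hF => ?_⟩
  obtain ⟨Z, hZ, hΛ, hZf⟩ := hm₀ hR m y u hm hu hL
  obtain ⟨G, hG, hFG⟩ := exists_fun_on hF
  have key := ht hW (fun q : Disc (closedBall y (5 * (2 ^ m)⁻¹)) => f q.1) Z _ (u y) hZ hΛ hu G hG
  have a1 : ∀ᵐ ω ∂L.P, F (L.H 0 ω) = G fun q => W (f q.1) ω := by
    filter_upwards [ae_eq_comp (fun q : Disc (closedBall y (5 * (2 ^ m)⁻¹)) => e2 q.1) hG] with ω hω
    rw [hFG, hω]
  have a2 : ∀ᵐ ω ∂L.P, F (addFn (L.H 0 ω) u) = G fun q => W (f q.1) ω + ⟪Z, f q.1⟫ := by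
    filter_upwards [ae_eq_comp (X := fun (q : Disc (closedBall y (5 * (2 ^ m)⁻¹))) ω =>
      addFn (L.H 0 ω) u q.1) (Y := fun q ω => W (f q.1) ω + ⟪Z, f q.1⟫)
      (fun q => (e2 q.1).mono fun ω hω => by
        simp only [addFn_apply, hZf q.1 q.2] at hω ⊢
        rw [hω]) hG] with ω hω
    rw [hFG, hω]
  have a3 : ∀ᵐ ω ∂L.P, (∑ j ∈ Finset.range m, L.eta j ω) y =
      W (∑ j ∈ Finset.range m, e j y) ω := by
    filter_upwards [hW.sum (Finset.range m) fun j => e j y, ae_all_iff.2 fun j => e1 j y]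
      with ω h1 h2
    rw [h1, ContinuousMap.sum_apply]
    exact Finset.sum_congr rfl fun j _ => h2 j
  have a4 : (2 : ℝ) ^ (s ^ 2 * m * (1 - 1 / p) / 2) =
      exp (s ^ 2 * ‖∑ j ∈ Finset.range m, e j y‖ ^ 2 * (1 - 1 / p) / 2) := by
    rw [hR.norm_sum_sq hK, rpow_def_of_pos two_pos]
    congr 1
    ring
  have a5 : ∫⁻ ω, ENNReal.ofReal (exp (-s * (p - 1) * (∑ j ∈ Finset.range m, L.eta j ω) y)) *
      F (L.H 0 ω) ^ p ∂L.P = ∫⁻ ω, ENNReal.ofReal (exp (-s * (p - 1) *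
        W (∑ j ∈ Finset.range m, e j y) ω)) * G (fun q => W (f q.1) ω) ^ p ∂L.P := by
    refine lintegral_congr_ae ?_
    filter_upwards [a1, a3] with ω h1 h3
    rw [h1, h3]
  rw [lintegral_congr_ae a1, lintegral_congr_ae a2, a4, a5]
  exact key

end Pool.Agent.Lib.MP_0d9445_pr.CM
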