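import Pool.Agent.Lib.MP_0d9445_pr.Su.Iface
import Pool.Agent.Lib.MP_0d9445_pr.CM.Cyl
import Pool.Agent.Lib.MP_0d9445_pr.CM.Span

/-! Cameron-Martin for potentials of circles; uniqueness of the law of the GFF. -/

open MeasureTheory ProbabilityTheory Set Real Metric LQ.Gauss
open scoped NNReal ENNReal RealInnerProductSpace

namespace Pool.Agent.Lib.MP_0d9445_pr.CM

theorem avg_log (q : ℝ × ℂ) (x : ℂ) :
    avg (fun y => log ‖x - y‖) q = log (max ‖x - q.2‖ (exp (-q.1))) := by
  have hR : 0 < exp (-q.1) := exp_pos _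
  have h1 : (fun y => log ‖x - y‖) = fun y => log ‖y - x‖ := by
    funext y; rw [norm_sub_rev]
  rw [avg, h1, circleAverage_log_norm_sub_const_eq_log_radius_add_posLog hR.ne', norm_sub_rev q.2]
  rcases le_total ‖x - q.2‖ (exp (-q.1)) with h | h
  · rw [max_eq_right h, (posLog_eq_zero_iff _).2, add_zero]
    rw [abs_of_nonneg (by positivity)]
    exact inv_mul_le_one_of_le₀ h hR.le
  · have h2 : 0 < ‖x - q.2‖ := hR.trans_le h
    rw [max_eq_left h, posLog_eq_log, log_mul (inv_pos.2 hR).ne' h2.ne', log_inv]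
    · ring
    · rw [abs_of_nonneg (by positivity)]
      exact (one_le_inv_mul₀ hR).2 h

theorem gffCov_eq (p q : ℝ × ℂ) : gffCov p q = avg (Su.pot q) p := by
  unfold gffCov
  congr 1
  funext x
  have hc : Continuous fun y : ℂ => log (max ‖y‖ 1) :=
    Continuous.log (by fun_prop) fun x => (lt_max_of_lt_right one_pos).ne'
  have h1 : CircleIntegrable (fun y : ℂ => log (max ‖y‖ 1)) q.2 (exp (-q.1)) :=
    hc.continuousOn.circleIntegrable'
  have h2 : CircleIntegrable (fun y : ℂ => log ‖x - y‖) q.2 (exp (-q.1)) := by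
    simpa only [norm_sub_rev x] using circleIntegrable_log_norm_sub_const (a := x) (c := q.2) _
  have h3 := avg_log q x
  change _ = log (max ‖x‖ 1) + avg (fun y => log (max ‖y‖ 1)) q - log (max ‖x - q.2‖ (exp (-q.1)))
  rw [← h3]
  unfold avg
  rw [circleAverage_fun_sub ((circleIntegrable_const _ _ _).fun_add h1) h2,
    circleAverage_fun_add (circleIntegrable_const _ _ _) h1, circleAverage_const]

/-- The Gaussian space of the normalised GFF. -/
theorem gff0_iso {ν : Measure Field} (h : Su.IsGFF0 ν) :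
    ∃ (K : Type) (_ : NormedAddCommGroup K) (_ : InnerProductSpace ℝ K) (_ : CompleteSpace K)
      (W : K → Field → ℝ) (f : ℝ × ℂ → K), IsIso W ν ∧ (∀ p, (fun H : Field => H p) =ᵐ[ν] W (f p)) ∧
        ∀ p q, ⟪f p, f q⟫ = gffCov p q := by
  obtain ⟨K, _, _, hK, W, f, hW, e, hc⟩ := exists_iso' h.1.gauss h.1.mean
  refine ⟨K, _, _, hK, W, f, hW, fun p => ?_, fun p q => (hc p q).trans (h.1.cov p q)⟩
  filter_upwards [e p, h.2] with H h1 h2
  rw [← h1, id, h2, sub_zero]

theorem cmPot {ν : Measure Field} (h : Su.IsGFF0 ν) : Su.CMpot ν := by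
  intro q t
  obtain ⟨K, _, _, hK, W, f, hW, e, hc⟩ := gff0_iso h
  refine Measure.AbsolutelyContinuous.mk fun A hA h0 => ?_
  have hm : Measurable fun H : Field => addFn H (t • Su.pot q) :=
    measurable_addFn.comp (measurable_id.prodMk measurable_const)
  rw [Measure.map_apply hm hA]
  obtain ⟨S, hS, hAS⟩ := exists_cyl hA
  have h1 := null_shift_iso hW e (t • f q) hS (by
    rw [← h0]; congr 1; ext H; exact (hAS H).symm)
  rw [← h1]
  congr 1
  ext H
  rw [mem_preimage, hAS, mem_ofPred_eq]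
  have : (fun p => addFn H (t • Su.pot q) p) = fun p => H p + ⟪t • f q, f p⟫ := by
    funext p
    rw [addFn_apply, real_inner_smul_left, real_inner_comm, hc, gffCov_eq]
    congr 1
    exact circleAverage_smul (a := t) (f := Su.pot q)
  rw [this]

theorem gff0_unique {ν ν' : Measure Field} (h : Su.IsGFF0 ν) (h' : Su.IsGFF0 ν') : ν = ν' := by
  obtain ⟨K, _, _, hK, W, f, hW, e, hc⟩ := gff0_iso h
  obtain ⟨K', _, _, hK', W', f', hW', e', hc'⟩ := gff0_iso h'
  exact cm_measure_ext (hW.version_map_eq hW' (fun p => measurable_ev p) e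
    (fun p => measurable_ev p) e' fun p q => (hc p q).trans (hc' p q).symm)

end Pool.Agent.Lib.MP_0d9445_pr.CM
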