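import Mathlib

/-! The layer kernel, the Laplacian and the polar averages. -/

open MeasureTheory Set Real
open scoped NNReal

noncomputable section

namespace Pool.Agent.Lib.MP_0d9445_pr.CM

/-- The profile of the layer covariance. -/
structure IsK (k : ℝ → ℝ) : Prop where
  smooth : ContDiff ℝ 1 k
  zero : k 0 = 1
  supp : ∀ s, 1 / 2 ≤ s → k s = 0
  nonneg : ∀ s, 0 ≤ s → 0 ≤ k s

/-- the covariance of the scales between `a` and `b` -/
def Kab (k : ℝ → ℝ) (a b : ℝ) (x : ℂ) : ℝ := ∫ v in a..b, k (v * ‖x‖) / v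

/-- the Laplacian -/
def lap (g : ℂ → ℝ) (x : ℂ) : ℝ :=
  fderiv ℝ (fun y => fderiv ℝ g y 1) x 1 + fderiv ℝ (fun y => fderiv ℝ g y Complex.I) x Complex.I

/-- polar average of `g` around `z` against `b k' (b ρ) dρ dθ` -/
def Sk (k : ℝ → ℝ) (b : ℝ) (g : ℂ → ℝ) (z : ℂ) : ℝ :=
  ∫ θ in (-π)..π, ∫ ρ in (0 : ℝ)..1, b * deriv k (b * ρ) * g (circleMap z ρ θ)

end Pool.Agent.Lib.MP_0d9445_pr.CM
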