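import Pool.Agent.Lib.MP_0d9445_pr.CM.KDefs

/-! Elementary facts on the layer kernel and on the polar averages. -/

open MeasureTheory Set Real Metric
open scoped NNReal

namespace Pool.Agent.Lib.MP_0d9445_pr.CM

variable {k : ℝ → ℝ} {g : ℂ → ℝ} {M a b r : ℝ}

private theorem Kern_deriv_zero (hk : IsK k) {s : ℝ} (hs : 1 / 2 < s) : deriv k s = 0 := by
  have e : k =ᶠ[nhds s] fun _ => 0 :=
    (lt_mem_nhds hs).mono fun t ht => hk.supp t ht.le
  rw [e.deriv_eq, deriv_const]

private theorem Kern_cont_deriv (hk : IsK k) : Continuous (deriv k) :=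
  hk.smooth.continuous_deriv le_rfl

private theorem Kern_diff (hk : IsK k) : Differentiable ℝ k :=
  hk.smooth.differentiable one_ne_zero

private theorem Kern_int (hk : IsK k) (ha : 0 < a) (hb : 0 < b) (x : ℂ) :
    IntervalIntegrable (fun v => k (v * ‖x‖) / v) volume a b := by
  refine ContinuousOn.intervalIntegrable (ContinuousOn.div ?_ continuousOn_id fun v hv => ?_)
  · exact (hk.smooth.continuous.comp (continuous_id.mul continuous_const)).continuousOn
  · exact ((lt_min ha hb).trans_le hv.1).ne'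

theorem IsK.exists_bound (hk : IsK k) : ∃ M : ℝ, 0 < M ∧ ∀ s, 0 ≤ s → |deriv k s| ≤ M := by
  obtain ⟨C, hC⟩ := (isCompact_Icc (a := (0 : ℝ)) (b := 1)).exists_bound_of_continuousOn
    (Kern_cont_deriv hk).continuousOn
  refine ⟨max C 1, lt_max_of_lt_right one_pos, fun s hs => ?_⟩
  rcases le_or_gt s 1 with h | h
  · exact le_max_of_le_left (hC s ⟨hs, h⟩)
  · rw [Kern_deriv_zero hk (by linarith), abs_zero]
    exact le_max_of_le_right zero_le_one

theorem IsK.deriv_eq_zero (hk : IsK k) {s : ℝ} (hs : 1 / 2 < s) : deriv k s = 0 := by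
  exact Kern_deriv_zero hk hs

theorem IsK.abs_sub_le (hk : IsK k) (hM : ∀ s, 0 ≤ s → |deriv k s| ≤ M) {s t : ℝ} (hs : 0 ≤ s)
    (ht : 0 ≤ t) : |k s - k t| ≤ M * |s - t| := by
  exact (convex_Ici (0 : ℝ)).norm_image_sub_le_of_norm_deriv_le (fun x _ => Kern_diff hk x)
    (fun x hx => hM x hx) ht hs

theorem Kab_lipschitz (hk : IsK k) (ha : 0 < a) (hab : a ≤ b) :
    ∃ L : ℝ≥0, LipschitzWith L (Kab k a b) := by
  obtain ⟨M, hM0, hM⟩ := hk.exists_bound
  have hb : 0 < b := ha.trans_le hab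
  refine ⟨⟨M * (b - a), mul_nonneg hM0.le (sub_nonneg.2 hab)⟩,
    LipschitzWith.of_dist_le_mul fun x y => ?_⟩
  rw [Real.dist_eq, Kab, Kab, ← intervalIntegral.integral_sub (Kern_int hk ha hb x)
    (Kern_int hk ha hb y), dist_eq_norm]
  have := intervalIntegral.norm_integral_le_of_norm_le_const (a := a) (b := b)
    (f := fun v => k (v * ‖x‖) / v - k (v * ‖y‖) / v) (C := M * ‖x - y‖) fun v hv => by
      rw [uIoc_of_le hab] at hv
      have hv0 : 0 < v := ha.trans hv.1
      rw [← sub_div, Real.norm_eq_abs, abs_div, abs_of_pos hv0, div_le_iff₀ hv0]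
      refine (hk.abs_sub_le hM (by positivity) (by positivity)).trans ?_
      rw [← mul_sub, abs_mul, abs_of_pos hv0, mul_assoc, mul_comm v]
      gcongr
      exact abs_norm_sub_norm_le x y
  rw [abs_of_nonneg (sub_nonneg.2 hab)] at this
  refine this.trans (le_of_eq ?_)
  change M * ‖x - y‖ * (b - a) = M * (b - a) * ‖x - y‖
  ring

theorem Kab_continuous (hk : IsK k) (ha : 0 < a) (hab : a ≤ b) : Continuous (Kab k a b) := by
  obtain ⟨L, hL⟩ := Kab_lipschitz hk ha hab
  exact hL.continuous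

theorem Kab_zero (hk : IsK k) (ha : 0 < a) (hab : a ≤ b) : Kab k a b 0 = log (b / a) := by
  simp only [Kab, norm_zero, mul_zero, hk.zero]
  refine integral_one_div fun h => ?_
  rw [uIcc_of_le hab] at h
  exact absurd h.1 (not_le.2 ha)

theorem Kab_neg (x : ℂ) : Kab k a b (-x) = Kab k a b x := by
  simp only [Kab, norm_neg]

theorem Kab_eq_zero (hk : IsK k) (ha : 0 < a) (hab : a ≤ b) {x : ℂ} (hx : 1 / 2 ≤ a * ‖x‖) :
    Kab k a b x = 0 := by
  rw [Kab, intervalIntegral.integral_congr (g := fun _ => 0), intervalIntegral.integral_zero]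
  intro v hv
  rw [uIcc_of_le hab] at hv
  have : a * ‖x‖ ≤ v * ‖x‖ := mul_le_mul_of_nonneg_right hv.1 (norm_nonneg x)
  simp only [hk.supp _ (hx.trans this), zero_div]

theorem Kab_sum (hk : IsK k) (n : ℕ) (x : ℂ) :
    ∑ j ∈ Finset.range n, Kab k (2 ^ j) (2 ^ (j + 1)) x = Kab k 1 (2 ^ n) x := by
  have := intervalIntegral.sum_integral_adjacent_intervals (a := fun j : ℕ => (2 : ℝ) ^ j) (n := n)
    (f := fun v => k (v * ‖x‖) / v) (μ := volume)
    fun j _ => Kern_int hk (by positivity) (by positivity) x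
  simpa only [pow_zero, Kab] using this

theorem Kab_scale (j : ℕ) (x : ℂ) :
    Kab k (2 ^ j) (2 ^ (j + 1)) x = Kab k 1 2 ((2 : ℝ) ^ j • x) := by
  have hc : (0 : ℝ) < 2 ^ j := by positivity
  have := intervalIntegral.mul_integral_comp_mul_left (a := 1) (b := 2)
    (f := fun v => k (v * ‖x‖) / v) ((2 : ℝ) ^ j)
  rw [mul_one, ← pow_succ] at this
  rw [Kab, Kab, ← this, ← intervalIntegral.integral_const_mul]
  refine intervalIntegral.integral_congr fun v _ => ?_
  simp only [norm_smul, Real.norm_eq_abs, abs_of_pos hc]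
  rw [mul_comm ((2 : ℝ) ^ j) v, mul_assoc, ← div_div, mul_div_cancel₀ _ hc.ne']

theorem Kab_integral_pos (hk : IsK k) : 0 < ∫ x, Kab k 1 2 x := by
  refine (Kab_continuous hk one_pos one_le_two).integral_pos_of_hasCompactSupport_nonneg_nonzero
    (x := 0) ?_ (fun x => ?_) ?_
  · refine HasCompactSupport.intro (isCompact_closedBall (0 : ℂ) 1) fun x hx => ?_
    rw [mem_closedBall_zero_iff, not_le] at hx
    exact Kab_eq_zero hk one_pos one_le_two (by linarith)
  · refine intervalIntegral.integral_nonneg one_le_two fun v hv => ?_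
    have hv0 : 0 ≤ v := zero_le_one.trans hv.1
    exact div_nonneg (hk.nonneg _ (by positivity)) hv0
  · rw [Kab_zero hk one_pos one_le_two, div_one]
    exact (log_pos one_lt_two).ne'

/-- the kernel of layer `j` integrates to the same constant over every large ball -/
theorem Kab_setIntegral (hk : IsK k) (j : ℕ) {y z : ℂ} (hz : ‖z - y‖ ≤ (2 ^ j)⁻¹ / 2) :
    4 ^ j * ∫ x in ball y (2 ^ j)⁻¹, Kab k (2 ^ j) (2 ^ (j + 1)) (z - x) = ∫ x, Kab k 1 2 x := by
  have hc : (0 : ℝ) < 2 ^ j := by positivity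
  rw [setIntegral_eq_integral_of_forall_compl_eq_zero, integral_sub_left_eq_self
    (Kab k (2 ^ j) (2 ^ (j + 1))) volume z]
  · simp only [Kab_scale]
    rw [Measure.integral_comp_smul volume (Kab k 1 2), Complex.finrank_real_complex,
      abs_of_pos (by positivity), smul_eq_mul, ← mul_assoc, ← pow_mul, mul_comm j 2, pow_mul]
    norm_num
  · intro x hx
    rw [mem_ball, not_lt, dist_eq_norm] at hx
    refine Kab_eq_zero hk hc (by rw [pow_succ]; linarith) ?_
    have h1 : ‖x - y‖ ≤ ‖z - x‖ + ‖z - y‖ := by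
      rw [norm_sub_rev z x]
      exact norm_sub_le_norm_sub_add_norm_sub x z y
    have h2 : ((2 : ℝ) ^ j)⁻¹ / 2 ≤ ‖z - x‖ := by linarith
    have h3 := mul_le_mul_of_nonneg_left h2 hc.le
    rwa [← mul_div_assoc, mul_inv_cancel₀ hc.ne'] at h3

private theorem Kern_sub {F G : ℝ → ℝ → ℝ} (hF : Continuous F.uncurry)
    (hG : Continuous G.uncurry) :
    ((∫ θ in (-π)..π, ∫ ρ in (0 : ℝ)..1, F θ ρ) - ∫ θ in (-π)..π, ∫ ρ in (0 : ℝ)..1, G θ ρ) =
      ∫ θ in (-π)..π, ∫ ρ in (0 : ℝ)..1, (F θ ρ - G θ ρ) := by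
  rw [← intervalIntegral.integral_sub
    ((intervalIntegral.continuous_parametric_intervalIntegral_of_continuous' hF 0 1).intervalIntegrable
      _ _)
    ((intervalIntegral.continuous_parametric_intervalIntegral_of_continuous' hG 0 1).intervalIntegrable
      _ _)]
  refine intervalIntegral.integral_congr fun θ _ => ?_
  exact (intervalIntegral.integral_sub ((hF.uncurry_left θ).intervalIntegrable _ _)
    ((hG.uncurry_left θ).intervalIntegrable _ _)).symm

private theorem Kern_bound {h : ℝ → ℝ → ℝ} (hh : Continuous h.uncurry) {s C : ℝ} (hs : 0 < s)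
    (hC : 0 ≤ C) (h1 : ∀ θ ρ, 0 ≤ ρ → ρ ≤ s → |h θ ρ| ≤ C) (h2 : ∀ θ ρ, s < ρ → h θ ρ = 0) :
    |∫ θ in (-π)..π, ∫ ρ in (0 : ℝ)..1, h θ ρ| ≤ 2 * π * (C * s) := by
  have key : ∀ θ, ‖∫ ρ in (0 : ℝ)..1, h θ ρ‖ ≤ C * s := fun θ => by
    rcases le_total 1 s with h1s | h1s
    · have := intervalIntegral.norm_integral_le_of_norm_le_const (a := 0) (b := 1) (f := h θ)
        (C := C) fun ρ hρ => by
          rw [uIoc_of_le zero_le_one] at hρ
          exact h1 θ ρ hρ.1.le (hρ.2.trans h1s)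
      rw [sub_zero, abs_one] at this
      exact this.trans (mul_le_mul_of_nonneg_left h1s hC)
    · have hi := fun a b => (hh.uncurry_left θ).intervalIntegrable (μ := volume) a b
      rw [← intervalIntegral.integral_add_adjacent_intervals (hi 0 s) (hi s 1)]
      have e1 := intervalIntegral.norm_integral_le_of_norm_le_const (a := 0) (b := s) (f := h θ)
        (C := C) fun ρ hρ => by
          rw [uIoc_of_le hs.le] at hρ
          exact h1 θ ρ hρ.1.le hρ.2
      have e2 := intervalIntegral.norm_integral_le_of_norm_le_const (a := s) (b := 1) (f := h θ)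
        (C := 0) fun ρ hρ => by
          rw [uIoc_of_le h1s] at hρ
          rw [h2 θ ρ hρ.1, norm_zero]
      rw [sub_zero, abs_of_pos hs] at e1
      rw [zero_mul] at e2
      exact (norm_add_le _ _).trans (by linarith)
  have := intervalIntegral.norm_integral_le_of_norm_le_const (a := -π) (b := π)
    (f := fun θ => ∫ ρ in (0 : ℝ)..1, h θ ρ) (C := C * s) fun θ _ => key θ
  rw [sub_neg_eq_add, abs_of_pos (by positivity)] at this
  exact this.trans (le_of_eq (by ring))

private theorem Kern_csub {F G : ℝ → ℝ → ℝ} (hF : Continuous F.uncurry)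
    (hG : Continuous G.uncurry) : Continuous (Function.uncurry fun θ ρ => F θ ρ - G θ ρ) :=
  hF.sub hG

private theorem Kern_contF (hk : IsK k) (hg : Continuous g) (b : ℝ) (z : ℂ) :
    Continuous (Function.uncurry fun θ ρ : ℝ => b * deriv k (b * ρ) * g (circleMap z ρ θ)) := by
  have := Kern_cont_deriv hk
  refine (continuous_const.mul (this.comp (continuous_const.mul continuous_snd))).mul (hg.comp ?_)
  unfold circleMap
  fun_prop

private theorem Kern_lip (hg : LipschitzWith 1 g) (x y : ℂ) : |g x - g y| ≤ ‖x - y‖ := by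
  have := hg.dist_le_mul x y
  rwa [NNReal.coe_one, one_mul, Real.dist_eq, dist_eq_norm] at this

private theorem Kern_cm (z w : ℂ) (ρ θ : ℝ) : circleMap z ρ θ - circleMap w ρ θ = z - w := by
  simp [circleMap]

private theorem Kern_norm (z : ℂ) {ρ : ℝ} (hρ : 0 ≤ ρ) (θ : ℝ) : ‖circleMap z ρ θ - z‖ = ρ := by
  rw [circleMap_sub_center, norm_circleMap_zero, abs_of_nonneg hρ]

private theorem Kern_w (hM : ∀ s, 0 ≤ s → |deriv k s| ≤ M) (hb : 0 < b) {ρ t D : ℝ} (hρ : 0 ≤ ρ)
    (ht : |t| ≤ D) : |b * deriv k (b * ρ) * t| ≤ b * M * D := by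
  rw [abs_mul, abs_mul, abs_of_pos hb]
  have h1 := hM (b * ρ) (by positivity)
  have h2 : 0 ≤ M := (abs_nonneg _).trans h1
  gcongr

private theorem Kern_w0 (hk : IsK k) (hb : 0 < b) {ρ : ℝ} (hρ : 1 / (2 * b) < ρ) :
    deriv k (b * ρ) = 0 := by
  refine Kern_deriv_zero hk ?_
  rw [div_lt_iff₀ (by positivity)] at hρ
  linarith

theorem Sk_lip (hk : IsK k) (hM : ∀ s, 0 ≤ s → |deriv k s| ≤ M) (hb : 1 ≤ b)
    (hg : LipschitzWith 1 g) (z w : ℂ) : |Sk k b g z - Sk k b g w| ≤ π * M * ‖z - w‖ := by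
  have hb0 : 0 < b := one_pos.trans_le hb
  have hM0 : 0 ≤ M := (abs_nonneg _).trans (hM 0 le_rfl)
  have c1 := Kern_contF hk hg.continuous b z
  have c2 := Kern_contF hk hg.continuous b w
  rw [Sk, Sk, Kern_sub c1 c2]
  refine (Kern_bound (Kern_csub c1 c2) (s := 1 / (2 * b)) (C := b * M * ‖z - w‖) (by positivity)
    (by positivity) (fun θ ρ h0 _ => ?_) fun θ ρ h => ?_).trans (le_of_eq ?_)
  · rw [← mul_sub]
    exact Kern_w hM hb0 h0 ((Kern_lip hg _ _).trans (Kern_cm z w ρ θ ▸ le_rfl))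
  · simp only [Kern_w0 hk hb0 h, mul_zero, zero_mul, sub_zero]
  · field_simp

theorem Sk_approx (hk : IsK k) (hM : ∀ s, 0 ≤ s → |deriv k s| ≤ M) (hb : 1 ≤ b)
    (hg : LipschitzWith 1 g) (z : ℂ) : |Sk k b g z + 2 * π * g z| ≤ π * M / b := by
  have hb0 : 0 < b := one_pos.trans_le hb
  have hM0 : 0 ≤ M := (abs_nonneg _).trans (hM 0 le_rfl)
  have c1 := Kern_contF hk hg.continuous b z
  have c2 := Kern_contF hk (g := fun _ => g z) continuous_const b z
  have e1 : ∫ ρ in (0 : ℝ)..1, b * deriv k (b * ρ) = -1 := by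
    rw [intervalIntegral.integral_eq_sub_of_hasDerivAt (f := fun ρ => k (b * ρ))]
    · rw [mul_one, mul_zero, hk.zero, hk.supp b (by linarith), zero_sub]
    · intro ρ _
      have := (Kern_diff hk (b * ρ)).hasDerivAt.comp ρ ((hasDerivAt_id ρ).const_mul b)
      rw [mul_one, mul_comm] at this
      exact this
    · exact (continuous_const.mul ((Kern_cont_deriv hk).comp
        (continuous_const.mul continuous_id))).intervalIntegrable _ _
  have e2 : (∫ _θ in (-π)..π, ∫ ρ in (0 : ℝ)..1, b * deriv k (b * ρ) * g z) = -(2 * π * g z) := by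
    rw [intervalIntegral.integral_mul_const, e1, intervalIntegral.integral_const, smul_eq_mul]
    ring
  rw [← sub_neg_eq_add, ← e2, Sk, Kern_sub c1 c2]
  refine (Kern_bound (Kern_csub c1 c2) (s := 1 / (2 * b)) (C := b * M * (1 / (2 * b))) (by positivity)
    (by positivity) (fun θ ρ h0 h1 => ?_) fun θ ρ h => ?_).trans ?_
  · rw [← mul_sub]
    exact Kern_w hM hb0 h0 ((Kern_lip hg _ _).trans ((Kern_norm z h0 θ).le.trans h1))
  · simp only [Kern_w0 hk hb0 h, mul_zero, zero_mul, sub_zero]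
  · have : 2 * π * (b * M * (1 / (2 * b)) * (1 / (2 * b))) = π * M / b / 2 := by field_simp
    rw [this]
    exact half_le_self (by positivity)

/-- only `ρ ≤ 16 r` contributes -/
theorem Sk_local_lip (hk : IsK k) (hM : ∀ s, 0 ≤ s → |deriv k s| ≤ M) (hr : 0 < r)
    (hg : LipschitzWith 1 g) {y : ℂ} (hs : ∀ x, 11 * r ≤ ‖x - y‖ → g x = 0) {z w : ℂ}
    (hz : z ∈ closedBall y (5 * r)) (hw : w ∈ closedBall y (5 * r)) :
    |Sk k 1 g z - Sk k 1 g w| ≤ 32 * π * M * r * ‖z - w‖ := by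
  have hM0 : 0 ≤ M := (abs_nonneg _).trans (hM 0 le_rfl)
  have c1 := Kern_contF hk hg.continuous 1 z
  have c2 := Kern_contF hk hg.continuous 1 w
  have far : ∀ u ∈ closedBall y (5 * r), ∀ θ ρ, 16 * r < ρ → g (circleMap u ρ θ) = 0 := by
    intro u hu θ ρ h
    refine hs _ ?_
    rw [mem_closedBall, dist_eq_norm] at hu
    have h1 := Kern_norm u (ρ := ρ) (by linarith) θ
    have h2 := norm_sub_le_norm_sub_add_norm_sub (circleMap u ρ θ) y u
    rw [norm_sub_rev y u] at h2
    linarith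
  rw [Sk, Sk, Kern_sub c1 c2]
  refine (Kern_bound (Kern_csub c1 c2) (s := 16 * r) (C := 1 * M * ‖z - w‖) (by positivity)
    (by positivity) (fun θ ρ h0 _ => ?_) fun θ ρ h => ?_).trans (le_of_eq ?_)
  · rw [← mul_sub]
    exact Kern_w hM one_pos h0 ((Kern_lip hg _ _).trans (Kern_cm z w ρ θ ▸ le_rfl))
  · simp only [far z hz θ ρ h, far w hw θ ρ h, mul_zero, sub_zero]
  · ring

theorem Sk_local_val (hk : IsK k) (hM : ∀ s, 0 ≤ s → |deriv k s| ≤ M) (hr : 0 < r)
    (hg : LipschitzWith 1 g) {y : ℂ} (hs : ∀ x, 11 * r ≤ ‖x - y‖ → g x = 0) :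
    |Sk k 1 g y| ≤ 500 * π * M * r ^ 2 := by
  have hM0 : 0 ≤ M := (abs_nonneg _).trans (hM 0 le_rfl)
  have c1 := Kern_contF hk hg.continuous 1 y
  rw [Sk]
  refine (Kern_bound c1 (s := 11 * r) (C := 1 * M * (22 * r)) (by positivity)
    (by positivity) (fun θ ρ h0 h1 => ?_) fun θ ρ h => ?_).trans ?_
  · refine Kern_w hM one_pos h0 ?_
    have e0 := Kern_norm y (ρ := 11 * r) (by positivity) θ
    have e1 := Kern_lip hg (circleMap y ρ θ) (circleMap y (11 * r) θ)
    have e2 := norm_sub_le_norm_sub_add_norm_sub (circleMap y ρ θ) y (circleMap y (11 * r) θ)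
    rw [hs _ e0.ge, sub_zero] at e1
    rw [norm_sub_rev y, e0, Kern_norm y h0] at e2
    linarith
  · rw [hs _ (by rw [Kern_norm y (by linarith)]; exact h.le), mul_zero]
  · have : 0 ≤ π * M * r ^ 2 := by positivity
    nlinarith

end Pool.Agent.Lib.MP_0d9445_pr.CM
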