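import Pool.Agent.Lib.MP_0d9445_pr.Defs
import Pool.Agent.Lib.MP_0d9445_pr.CM.Kern

/-! Cameron-Martin vectors for the fine field. -/

open MeasureTheory Set Real Metric
open scoped NNReal RealInnerProductSpace

namespace Pool.Agent.Lib.MP_0d9445_pr.CM

variable {k : ℝ → ℝ} {H : Type} [NormedAddCommGroup H] [InnerProductSpace ℝ H] [CompleteSpace H]
  {e : ℕ → ℂ → H} {f : ℝ × ℂ → H}

/-- vectors of the layers and of the circle averages of the fine field -/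
structure Rep (k : ℝ → ℝ) (e : ℕ → ℂ → H) (f : ℝ × ℂ → H) : Prop where
  ee : ∀ i j x y, ⟪e i x, e j y⟫ = if i = j then Kab k (2 ^ j) (2 ^ (j + 1)) (x - y) else 0
  fe : ∀ p j y, ⟪f p, e j y⟫ = avg (fun x => Kab k (2 ^ j) (2 ^ (j + 1)) (x - y)) p

private theorem Rep_le (j : ℕ) : (2 : ℝ) ^ j ≤ 2 ^ (j + 1) :=
  pow_le_pow_right₀ one_le_two (Nat.le_succ j)

private theorem Rep_K0 (hk : IsK k) (j : ℕ) : Kab k (2 ^ j) (2 ^ (j + 1)) 0 = log 2 := by
  rw [Kab_zero hk (by positivity) (Rep_le j), pow_succ,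
    mul_div_cancel_left₀ _ (by positivity)]

omit [CompleteSpace H] in
private theorem Rep_norm_sq (h : Rep k e f) (hk : IsK k) (j : ℕ) (x : ℂ) :
    ‖e j x‖ ^ 2 = log 2 := by
  rw [← real_inner_self_eq_norm_sq, h.ee, if_pos rfl, sub_self, Rep_K0 hk]

theorem Rep.continuous (h : Rep k e f) (hk : IsK k) (j : ℕ) : Continuous (e j) := by
  refine continuous_iff_continuousAt.2 fun y => tendsto_iff_norm_sub_tendsto_zero.2 ?_
  have h1 : ∀ x, ‖e j x - e j y‖ = √(2 * log 2 - 2 * Kab k (2 ^ j) (2 ^ (j + 1)) (x - y)) := by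
    intro x
    rw [← sqrt_sq (norm_nonneg (e j x - e j y)), norm_sub_sq_real, Rep_norm_sq h hk,
      Rep_norm_sq h hk, h.ee, if_pos rfl]
    congr 1
    ring
  have h2 := Kab_continuous hk (a := 2 ^ j) (by positivity) (Rep_le j)
  have h3 : Continuous fun x => √(2 * log 2 - 2 * Kab k (2 ^ j) (2 ^ (j + 1)) (x - y)) := by
    fun_prop
  have h4 := h3.tendsto y
  rw [sub_self, Rep_K0 hk, sub_self, sqrt_zero] at h4
  simpa only [h1] using h4

theorem Rep.norm_sq (h : Rep k e f) (hk : IsK k) (j : ℕ) (x : ℂ) : ‖e j x‖ ^ 2 = log 2 :=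
  Rep_norm_sq h hk j x

theorem Rep.norm_sum_sq (h : Rep k e f) (hk : IsK k) (m : ℕ) (y : ℂ) :
    ‖∑ j ∈ Finset.range m, e j y‖ ^ 2 = m * log 2 := by
  rw [← real_inner_self_eq_norm_sq, sum_inner]
  have h1 : ∀ i ∈ Finset.range m, ⟪e i y, ∑ j ∈ Finset.range m, e j y⟫ = log 2 := by
    intro i hi
    rw [inner_sum]
    simp only [h.ee, sub_self, Rep_K0 hk]
    rw [Finset.sum_ite_eq, if_pos hi]
  rw [Finset.sum_congr rfl h1, Finset.sum_const, Finset.card_range, nsmul_eq_mul]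

omit [CompleteSpace H] in
private theorem Rep_norm_le (h : Rep k e f) (hk : IsK k) (j : ℕ) (x : ℂ) : ‖e j x‖ ≤ 1 := by
  have h1 := Rep_norm_sq h hk j x
  have h2 := log_two_lt_d9
  nlinarith [norm_nonneg (e j x)]

private theorem Rep_integrable (h : Rep k e f) (hk : IsK k) (j : ℕ) {ρ : ℂ → ℝ}
    (hρ : Integrable ρ) : Integrable fun x => ρ x • e j x :=
  hρ.smul_bdd 1 (h.continuous hk j).aestronglyMeasurable (ae_of_all _ (Rep_norm_le h hk j))

private theorem Rep_inner (h : Rep k e f) (hk : IsK k) (j : ℕ) {ρ : ℂ → ℝ}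
    (hρ : Integrable ρ) (c : H) : ⟪∫ x, ρ x • e j x, c⟫ = ∫ x, ⟪c, e j x⟫ * ρ x := by
  rw [real_inner_comm, ← integral_inner (Rep_integrable h hk j hρ)]
  simp only [real_inner_smul_right, mul_comm]

private theorem Rep_avg (h : Rep k e f) (hk : IsK k) (j : ℕ) (c : H) (p : ℝ × ℂ) :
    ⟪c, circleAverage (e j) p.2 (exp (-p.1))⟫ = avg (fun z => ⟪c, e j z⟫) p :=
  ((innerSL ℝ c).circleAverage_comp_comm (h.continuous hk j).continuousOn.circleIntegrable').symm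

private theorem Rep_inner_e (h : Rep k e f) (hk : IsK k) (i j : ℕ) {ρ : ℂ → ℝ}
    (hρ : Integrable ρ) (z : ℂ) : ⟪∫ x, ρ x • e j x, e i z⟫ =
      if i = j then ∫ x, Kab k (2 ^ j) (2 ^ (j + 1)) (z - x) * ρ x else 0 := by
  rw [Rep_inner h hk j hρ]
  simp only [h.ee]
  split_ifs <;> simp

/-- For `Z = ∫ ρ x • e j x` one has `⟪Z, f p⟫ = avg (⟪Z, e j .⟫) p`: both are the inner product
with the (Bochner) circle average of `e j`. -/
theorem Rep.inner_integral (h : Rep k e f) (hk : IsK k) (j : ℕ) {ρ : ℂ → ℝ}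
    (hρ : Integrable ρ) (p : ℝ × ℂ) : ⟪∫ x, ρ x • e j x, f p⟫ =
      avg (fun z => ∫ x, Kab k (2 ^ j) (2 ^ (j + 1)) (z - x) * ρ x) p := by
  have h1 : ∀ x, ⟪f p, e j x⟫ = ⟪circleAverage (e j) p.2 (exp (-p.1)), e j x⟫ := by
    intro x
    rw [h.fe, real_inner_comm, Rep_avg h hk]
    congr 1
    funext z
    rw [real_inner_comm, h.ee, if_pos rfl]
  rw [Rep_inner h hk j hρ]
  simp only [h1]
  rw [← Rep_inner h hk j hρ, Rep_avg h hk]
  simp only [Rep_inner_e h hk j j hρ, if_true]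

theorem Rep.inner_integral_e (h : Rep k e f) (hk : IsK k) (i j : ℕ) {ρ : ℂ → ℝ}
    (hρ : Integrable ρ) (z : ℂ) : ⟪∫ x, ρ x • e j x, e i z⟫ =
      if i = j then ∫ x, Kab k (2 ^ j) (2 ^ (j + 1)) (z - x) * ρ x else 0 :=
  Rep_inner_e h hk i j hρ z

/-- the normalised indicator of a ball -/
private noncomputable def Rep_rho (κ : ℝ) (y : ℂ) (j : ℕ) : ℂ → ℝ :=
  (ball y (2 ^ j)⁻¹).indicator fun _ => 4 ^ j / κ

private theorem Rep_rho_int (κ : ℝ) (y : ℂ) (j : ℕ) : Integrable (Rep_rho κ y j) :=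
  (integrable_indicator_iff measurableSet_ball).2
    (integrableOn_const measure_ball_lt_top.ne)

private theorem Rep_rho_one (hk : IsK k) (j : ℕ) {y z : ℂ} (hz : ‖z - y‖ ≤ (2 ^ j)⁻¹ / 2) :
    ∫ x, Kab k (2 ^ j) (2 ^ (j + 1)) (z - x) * Rep_rho (∫ x, Kab k 1 2 x) y j x = 1 := by
  have h1 := Kab_setIntegral hk j hz
  have h2 := Kab_integral_pos hk
  have h3 : ∀ x, Kab k (2 ^ j) (2 ^ (j + 1)) (z - x) * Rep_rho (∫ x, Kab k 1 2 x) y j x =
      (ball y (2 ^ j)⁻¹).indicator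
        (fun x => Kab k (2 ^ j) (2 ^ (j + 1)) (z - x) * (4 ^ j / ∫ x, Kab k 1 2 x)) x := by
    intro x
    unfold Rep_rho
    by_cases hx : x ∈ ball y (2 ^ j)⁻¹
    · rw [indicator_of_mem hx, indicator_of_mem hx]
    · rw [indicator_of_notMem hx, indicator_of_notMem hx, mul_zero]
  simp only [h3]
  rw [integral_indicator measurableSet_ball, integral_mul_const, ← mul_div_assoc, mul_comm, h1,
    div_self h2.ne']

private theorem Rep_rho_norm (h : Rep k e f) (hk : IsK k) {κ : ℝ} (hκ : 0 < κ) (y : ℂ) (j : ℕ) :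
    ‖∫ x, Rep_rho κ y j x • e j x‖ ≤ π / κ := by
  have h0 : ∀ x, 0 ≤ Rep_rho κ y j x := fun x =>
    indicator_nonneg (fun _ _ => by positivity) x
  refine (norm_integral_le_of_norm_le (Rep_rho_int κ y j) (ae_of_all _ fun x => ?_)).trans ?_
  · rw [norm_smul, Real.norm_of_nonneg (h0 x)]
    exact mul_le_of_le_one_right (h0 x) (Rep_norm_le h hk j x)
  · unfold Rep_rho
    rw [integral_indicator measurableSet_ball, setIntegral_const, measureReal_def,
      Complex.volume_ball, ENNReal.toReal_mul, ENNReal.toReal_pow,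
      ENNReal.toReal_ofReal (by positivity), ENNReal.coe_toReal, NNReal.coe_real_pi, smul_eq_mul,
      show (4 : ℝ) ^ j = (2 ^ j) ^ 2 by rw [← pow_mul, mul_comm, pow_mul]; norm_num]
    refine le_of_eq ?_
    field_simp

/-- The constant mode: `Z = (m - 3)⁻¹ κ⁻¹ ∑_{j ≤ m - 4} 4 ^ j ∫_{ball y 2⁻ʲ} e j`. -/
theorem exists_const (hk : IsK k) : ∃ C : ℝ, 0 < C ∧ ∀ {H : Type} [NormedAddCommGroup H]
    [InnerProductSpace ℝ H] [CompleteSpace H] {e : ℕ → ℂ → H} {f : ℝ × ℂ → H}, Rep k e f →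
    ∀ (m : ℕ) (y : ℂ), 4 ≤ m → ∃ Z : H, ‖Z‖ ^ 2 ≤ C / m ∧
      (∀ p : ℝ × ℂ, closedBall p.2 (exp (-p.1)) ⊆ closedBall y (5 * (2 ^ m)⁻¹) → ⟪Z, f p⟫ = 1) ∧
      ⟪Z, ∑ j ∈ Finset.range m, e j y⟫ = 1 := by
  have hκ := Kab_integral_pos hk
  set κ := ∫ x, Kab k 1 2 x with hκ'
  refine ⟨4 * (π / κ) ^ 2, by positivity, ?_⟩
  intro H _ _ _ e f h m y hm
  obtain ⟨n, rfl⟩ : ∃ n, m = n + 3 := ⟨m - 3, by omega⟩
  have hn : (1 : ℝ) ≤ n := by exact_mod_cast (by omega : 1 ≤ n)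
  have hn0 : (n : ℝ) ≠ 0 := by positivity
  set Z : ℕ → H := fun j => ∫ x, Rep_rho κ y j x • e j x with hZ
  have key : ∀ c : H, (∀ j ∈ Finset.range n, ⟪Z j, c⟫ = 1) →
      ⟪(n : ℝ)⁻¹ • ∑ j ∈ Finset.range n, Z j, c⟫ = 1 := by
    intro c hc
    rw [real_inner_smul_left, sum_inner, Finset.sum_congr rfl hc, Finset.sum_const,
      Finset.card_range, nsmul_eq_mul, mul_one, inv_mul_cancel₀ hn0]
  refine ⟨(n : ℝ)⁻¹ • ∑ j ∈ Finset.range n, Z j, ?_, fun p hp => key _ fun j hj => ?_,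
    key _ fun j hj => ?_⟩
  · have h1 : ∀ i j, j ≠ i → ⟪Z i, Z j⟫ = 0 := by
      intro i j hij
      rw [real_inner_comm, Rep_inner h hk j (Rep_rho_int κ y j)]
      simp only [hZ, Rep_inner_e h hk j i (Rep_rho_int κ y i), if_neg hij, zero_mul,
        integral_zero]
    have h2 : ‖∑ j ∈ Finset.range n, Z j‖ ^ 2 ≤ n * (π / κ) ^ 2 := by
      rw [← real_inner_self_eq_norm_sq, sum_inner]
      have h3 : ∀ i ∈ Finset.range n, ⟪Z i, ∑ j ∈ Finset.range n, Z j⟫ ≤ (π / κ) ^ 2 := by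
        intro i hi
        rw [inner_sum, Finset.sum_eq_single_of_mem i hi fun j _ hj => h1 i j hj,
          real_inner_self_eq_norm_sq]
        exact pow_le_pow_left₀ (norm_nonneg _) (Rep_rho_norm h hk hκ y i) 2
      simpa using Finset.sum_le_sum h3
    rw [norm_smul, mul_pow, norm_inv, Real.norm_natCast]
    have h4 : (0 : ℝ) ≤ (π / κ) ^ 2 := by positivity
    calc (n : ℝ)⁻¹ ^ 2 * ‖∑ j ∈ Finset.range n, Z j‖ ^ 2 ≤ (n : ℝ)⁻¹ ^ 2 * (n * (π / κ) ^ 2) := by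
          gcongr
      _ = (π / κ) ^ 2 / n := by field_simp
      _ ≤ _ := by
          rw [div_le_div_iff₀ (by positivity) (by positivity)]
          push_cast
          nlinarith
  · rw [hZ, h.inner_integral hk j (Rep_rho_int κ y j)]
    refine circleAverage_const_on_circle fun z hz => Rep_rho_one hk j ?_
    rw [abs_of_pos (exp_pos _)] at hz
    have h1 := mem_closedBall_iff_norm.1 (hp (sphere_subset_closedBall hz))
    have h2 : (2 : ℝ) ^ (j + 4) ≤ 2 ^ (n + 3) :=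
      pow_le_pow_right₀ one_le_two (by have := Finset.mem_range.1 hj; omega)
    have h3 : ((2 : ℝ) ^ (n + 3))⁻¹ ≤ (2 ^ (j + 4))⁻¹ := inv_anti₀ (by positivity) h2
    rw [pow_add (2 : ℝ) j 4, mul_inv] at h3
    have h4 : (0 : ℝ) < (2 ^ j)⁻¹ := by positivity
    norm_num at h3 h1 ⊢
    linarith
  · rw [inner_sum]
    simp only [hZ, Rep_inner_e h hk _ j (Rep_rho_int κ y j)]
    rw [Finset.sum_ite_eq', if_pos (Finset.mem_range.2 (by have := Finset.mem_range.1 hj; omega))]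
    refine Rep_rho_one hk j ?_
    rw [sub_self, norm_zero]
    positivity

end Pool.Agent.Lib.MP_0d9445_pr.CM
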